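import Mathlib
import Pool.Agent.Helper14C.Fin0

/-!
# Curves on very general hypersurfaces of degree `q * a`, `a ≥ a0(N)`: statements of the parts

`P^N` over `ℚ` with a finite family of pencils `(u t : v t)` of forms of degree `m t`.
`L = H + M1 * ∑ F_t`: its sections are the `WW β`, of degree `1 + M1 * ∑ m t`.
-/

set_option autoImplicit false

open MvPolynomial

namespace Pool.Agent.Helper14D

/-! ### Part 1: combinatorics -/

/-- the weights -/
def cw (N m : ℕ) : ℤ :=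
  (-1) ^ (m - 1) * ((N.choose m * (m.factorial ^ 2 * (2 * N - 2 * m).factorial) / m : ℕ) : ℤ)

/-- ordered pairs of disjoint nonempty subsets of `Fin (2 N)` of the same size -/
abbrev Pen (N : ℕ) : Type :=
  {t : Finset (Fin (2 * N)) × Finset (Fin (2 * N)) //
    Disjoint t.1 t.2 ∧ t.1.card = t.2.card ∧ 0 < t.1.card}

def S_trace : Prop := ∀ (N : ℕ) (P S' T' : Finset (Fin (2 * N))), P.card = N →
  S' ⊆ P → T' ⊆ P → Disjoint S' T' → S'.Nonempty → T'.Nonempty →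
    ∑ t ∈ (Finset.univ : Finset (Pen N)).filter (fun t => t.1.1 ∩ P = S' ∧ t.1.2 ∩ P = T'),
      cw N t.1.1.card = 0

def S_total : Prop := ∀ N : ℕ, 0 < N →
  ∑ t : Pen N, cw N t.1.1.card * (t.1.1.card : ℤ) = (2 * N).factorial

/-! ### Part 2: the relation `kk * H = ∑ c t * F_t` -/

section data

variable {N : ℕ} {τ : Type} [Fintype τ]

/-- the valuation of a polynomial -/
noncomputable abbrev vl {k : Type} [Field k] {N : ℕ}
    (O : ValuationSubring (FractionRing (MvPolynomial (Fin (N + 1)) k)))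
    (f : MvPolynomial (Fin (N + 1)) k) : O.ValueGroup :=
  O.valuation (algebraMap _ _ f)

/-- `∏ max (v (u t)) (v (v t)) ^ c t = v (X i0) ^ kk` where `v (X i0)` is maximal -/
def Rel (u v : τ → MvPolynomial (Fin (N + 1)) ℚ) (c : τ → ℤ) (kk : ℕ) : Prop :=
  ∀ O : ValuationSubring (FractionRing (MvPolynomial (Fin (N + 1)) ℚ)),
    (∀ a : ℚ, algebraMap ℚ _ a ∈ O) → ∃ i0, (∀ i, vl O (X i) ≤ vl O (X i0)) ∧
      ∏ t, (max (vl O (u t)) (vl O (v t))) ^ (c t) = vl O (X i0) ^ kk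

/-- linear forms in general position -/
noncomputable def lf (N : ℕ) (i : Fin (2 * N)) : MvPolynomial (Fin (N + 1)) ℚ :=
  ∑ j : Fin (N + 1), C (((i : ℕ) : ℚ) ^ (j : ℕ)) * X j

noncomputable def pu (N : ℕ) (t : Pen N) : MvPolynomial (Fin (N + 1)) ℚ := ∏ i ∈ t.1.1, lf N i

noncomputable def pv (N : ℕ) (t : Pen N) : MvPolynomial (Fin (N + 1)) ℚ := ∏ i ∈ t.1.2, lf N i

def S_rel : Prop := ∀ N : ℕ, 0 < N →
  Rel (pu N) (pv N) (fun t => cw N t.1.1.card) (2 * N).factorial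

/-! ### Part 3: integrality -/

/-- the index set of the sections of `L` -/
abbrev Ix (N : ℕ) (τ : Type) (M1 : ℕ) : Type := Fin (N + 1) × (τ → Fin (M1 + 1))

/-- the sections of `L` -/
noncomputable def WW (u v : τ → MvPolynomial (Fin (N + 1)) ℚ) (M1 : ℕ) (β : Ix N τ M1) :
    MvPolynomial (Fin (N + 1)) ℚ :=
  X β.1 * ∏ t, (u t ^ (β.2 t : ℕ) * v t ^ (M1 - (β.2 t : ℕ)))

/-- the sections of `L - F_t` (for `β.2 t < M1`): `WW β = v t * wp t β` -/
noncomputable def wp [DecidableEq τ] (u v : τ → MvPolynomial (Fin (N + 1)) ℚ) (M1 : ℕ) (t : τ)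
    (β : Ix N τ M1) : MvPolynomial (Fin (N + 1)) ℚ :=
  X β.1 * ((u t ^ (β.2 t : ℕ) * v t ^ (M1 - 1 - (β.2 t : ℕ))) *
    ∏ t' ∈ Finset.univ.erase t, (u t' ^ (β.2 t' : ℕ) * v t' ^ (M1 - (β.2 t' : ℕ))))

/-- raising the exponent of `u t` -/
def up [DecidableEq τ] {M1 : ℕ} (t : τ) (β : Ix N τ M1) (h : (β.2 t : ℕ) < M1) : Ix N τ M1 :=
  (β.1, Function.update β.2 t ⟨(β.2 t : ℕ) + 1, by omega⟩)

/-- `∏ (u t - T * v t) ^ b t` -/
noncomputable def UU (u v : τ → MvPolynomial (Fin (N + 1)) ℚ) (b : τ → ℕ) :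
    Polynomial (MvPolynomial (Fin (N + 1)) ℚ) :=
  ∏ t, (Polynomial.C (u t) - Polynomial.X * Polynomial.C (v t)) ^ b t

/-- integrality over a ring of a valuation field, by valuation rings -/
def S_val : Prop := ∀ (E : Type) [Field E] (A : Subring E) (g : E),
  (∀ O : ValuationSubring E, A ≤ O.toSubring → g ∈ O) → IsIntegral A g

def S_ints : Prop := ∀ (N : ℕ) (τ : Type) [Fintype τ] [DecidableEq τ]
  (u v : τ → MvPolynomial (Fin (N + 1)) ℚ) (c : τ → ℤ) (kk M1 : ℕ) (b : τ → ℕ),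
  (∀ t, u t ≠ 0) → (∀ t, v t ≠ 0) → Rel u v c kk → 0 < kk → 0 < M1 →
  (∀ t, (b t : ℤ) = c t + kk * M1) → kk ≤ ∑ t, b t →
    (∀ j, IsIntegral (Algebra.adjoin ℚ (Set.range (WW u v M1))) ((UU u v b).coeff j)) ∧
    (∀ β, IsIntegral (Algebra.adjoin ℚ (Set.range fun j : Fin (∑ t, b t + 1) =>
      (UU u v b).coeff (j : ℕ))) (WW u v M1 β)) ∧
    (∀ γ : τ → Ix N τ M1, (∀ t, ((γ t).2 t : ℕ) < M1) →
      IsIntegral (Algebra.adjoin ℚ (Set.range (WW u v M1))) (∏ t, wp u v M1 t (γ t) ^ b t))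

/-! ### Part 4: the generic projection -/

/-- the coordinates of the projection -/
noncomputable def yy {k : Type} [Field k] [CharZero k] (u v : τ → MvPolynomial (Fin (N + 1)) ℚ)
    (M1 : ℕ) (η : Fin (N + 1) → Fin (N + 1) → k) (lam : Fin (N + 1) → τ → k) (j : Fin (N + 1)) :
    MvPolynomial (Fin (N + 1)) k :=
  (∑ i, C (η j i) * X i) * ∏ t, (MvPolynomial.map (algebraMap ℚ k) (u t)
    - C (lam j t) * MvPolynomial.map (algebraMap ℚ k) (v t)) ^ M1

/-- independent parameters -/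
def Gen {k : Type} [Field k] [CharZero k] (η : Fin (N + 1) → Fin (N + 1) → k)
    (lam : Fin (N + 1) → τ → k) : Prop :=
  AlgebraicIndependent ℚ (Sum.elim (fun z : Fin (N + 1) × Fin (N + 1) => η z.1 z.2)
    (fun z : Fin (N + 1) × τ => lam z.1 z.2))

/-- the `yy j` have no common zeros -/
def S_bpf : Prop := ∀ (N : ℕ) (τ : Type) [Fintype τ]
  (m : τ → ℕ) (u v : τ → MvPolynomial (Fin (N + 1)) ℚ) (M1 : ℕ) (k : Type) [Field k] [CharZero k]
  (η : Fin (N + 1) → Fin (N + 1) → k) (lam : Fin (N + 1) → τ → k),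
  (∀ t, (u t).IsHomogeneous (m t)) → (∀ t, (v t).IsHomogeneous (m t)) →
  (∀ t, u t ≠ 0) → (∀ t, v t ≠ 0) → Gen η lam →
  ∀ O : ValuationSubring (FractionRing (MvPolynomial (Fin (N + 1)) k)),
    (∀ a : k, algebraMap k _ a ∈ O) → ∃ j0, ∀ β : Ix N τ M1,
      vl O (MvPolynomial.map (algebraMap ℚ k) (WW u v M1 β)) ≤ vl O (yy u v M1 η lam j0)

/-- the field generated by the `y j` -/
noncomputable abbrev Fy {k : Type} [Field k] {N : ℕ} (y : Fin (N + 1) → MvPolynomial (Fin (N + 1)) k) :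
    IntermediateField k (FractionRing (MvPolynomial (Fin (N + 1)) k)) :=
  IntermediateField.adjoin k (Set.range fun j =>
    algebraMap (MvPolynomial (Fin (N + 1)) k) (FractionRing (MvPolynomial (Fin (N + 1)) k)) (y j))

/-- the degree of the projection is prime to `ℓ`, in coordinates -/
def S_deg : Prop := ∀ (k : Type) [Field k] [CharZero k] (N M1 G0 ℓ : ℕ), 0 < N → ℓ.Prime →
  ℓ ∣ M1 → 0 < M1 → ∀ (g : Fin (N + 1) → MvPolynomial (Fin (N + 1)) k),
  (∀ j, (g j).IsHomogeneous G0) → (∀ j, eval (Pi.single 0 1) (g j) ≠ 0) →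
  (∀ O : ValuationSubring (FractionRing (MvPolynomial (Fin (N + 1)) k)),
    (∀ a : k, algebraMap k _ a ∈ O) → ∃ j0, ∀ i j,
      vl O (X i * g j ^ M1) ≤ vl O (X j0 * g j0 ^ M1)) →
    AlgebraicIndependent k (fun j => X j * g j ^ M1) ∧
    FiniteDimensional (Fy (fun j => X j * g j ^ M1))
      (FractionRing (MvPolynomial (Fin (N + 1)) k)) ∧
    ¬ ℓ ∣ Module.finrank (Fy (fun j => X j * g j ^ M1))
      (FractionRing (MvPolynomial (Fin (N + 1)) k))

/-- the degree of the projection is prime to `ℓ` -/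
def S_proj : Prop := ∀ (N : ℕ) (τ : Type) [Fintype τ]
  (m : τ → ℕ) (u v : τ → MvPolynomial (Fin (N + 1)) ℚ) (M1 : ℕ) (k : Type) [Field k] [CharZero k]
  (η : Fin (N + 1) → Fin (N + 1) → k) (lam : Fin (N + 1) → τ → k),
  0 < N → 0 < M1 → (∀ t, (u t).IsHomogeneous (m t)) → (∀ t, (v t).IsHomogeneous (m t)) →
  (∀ t, u t ≠ 0) → (∀ t, v t ≠ 0) → Gen η lam →
    AlgebraicIndependent k (yy u v M1 η lam) ∧
    FiniteDimensional (Fy (yy u v M1 η lam)) (FractionRing (MvPolynomial (Fin (N + 1)) k)) ∧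
    ∀ ℓ : ℕ, ℓ.Prime → ℓ ∣ M1 → ¬ ℓ ∣ Module.finrank (Fy (yy u v M1 η lam))
      (FractionRing (MvPolynomial (Fin (N + 1)) k))

end data

/-! ### Part 5: algebra -/

/-- extension of homomorphisms to algebraically closed fields -/
def S_ext : Prop := ∀ (A B Ω : Type) [CommRing A] [CommRing B] [Algebra A B]
  [Algebra.IsIntegral A B] [Field Ω] [IsAlgClosed Ω],
  Function.Injective (algebraMap A B) → ∀ g : A →+* Ω, ∃ g' : B →+* Ω, g'.comp (algebraMap A B) = g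

/-- base change of relations -/
def S_bc : Prop := ∀ (K κ : Type) [Field K] [Field κ] (φ : K →+* κ) (σ τ : Type)
  (a : σ → MvPolynomial τ K) (p : MvPolynomial σ κ),
  aeval (fun i => MvPolynomial.map φ (a i)) p = 0 →
    p ∈ Ideal.map (MvPolynomial.map φ) (RingHom.ker (aeval a : MvPolynomial σ K →ₐ[K] _))

/-- the constant coefficient of the minimal polynomial -/
def S_norm : Prop := ∀ (k : Type) [Field k] [CharZero k] (N : ℕ)
  (y : Fin (N + 1) → MvPolynomial (Fin (N + 1)) k) (D0 : ℕ), 0 < D0 →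
  (∀ j, (y j).IsHomogeneous D0) → AlgebraicIndependent k y →
  FiniteDimensional (Fy y) (FractionRing (MvPolynomial (Fin (N + 1)) k)) →
  ∀ (s : MvPolynomial (Fin (N + 1)) k) (q : ℕ), s.IsHomogeneous (q * D0) →
    IsIntegral (Algebra.adjoin k (Set.range y)) s →
    ∃ (n : ℕ) (G : MvPolynomial (Fin (N + 1)) k), 0 < n ∧ G.IsHomogeneous (q * n) ∧
      n ∣ Module.finrank (Fy y) (FractionRing (MvPolynomial (Fin (N + 1)) k)) ∧
      ∀ F : MvPolynomial (Option (Fin (N + 1))) k, aeval (fun o => Option.elim o s y) F = 0 →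
        G ∣ aeval (fun o => Option.elim o (0 : MvPolynomial (Fin (N + 1)) k) X) F

/-- homogeneous integral equations -/
def S_homint : Prop := ∀ (k : Type) [Field k] (σ X : Type) [Finite X]
  (y : σ → MvPolynomial X k) (D0 e : ℕ) (g : MvPolynomial X k), 0 < D0 →
  (∀ j, (y j).IsHomogeneous D0) → g.IsHomogeneous (e * D0) →
  IsIntegral (Algebra.adjoin k (Set.range y)) g →
    ∃ (n : ℕ) (A : ℕ → MvPolynomial σ k), 0 < n ∧ (∀ i, (A i).IsHomogeneous (e * i)) ∧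
      g ^ n + ∑ i ∈ Finset.range n, aeval y (A (i + 1)) * g ^ (n - 1 - i) = 0

/-- reduction exponents -/
def S_reduce : Prop := ∀ (κ Ω : Type) [Field κ] [Field Ω] [Algebra κ Ω]
  (P Q : Submodule κ Ω) (D : ℕ) (q : Fin (D + 1) → Ω), Q = Submodule.span κ (Set.range q) →
  ∀ n : Fin (D + 1) → ℕ, (∀ j, 0 < n j) →
    (∀ j, ∃ a : ℕ → Ω, (∀ i, a i ∈ P ^ i) ∧
      q j ^ n j + ∑ i ∈ Finset.range (n j), a (i + 1) * q j ^ (n j - 1 - i) = 0) →
    ∀ e, (P ⊔ Q) ^ (∑ j, n j + e) ≤ P ^ e * (P ⊔ Q) ^ (∑ j, n j)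

/-- growth of powers of subspaces of a field -/
def S_growth : Prop := ∀ (κ Ω : Type) [Field κ] [Field Ω] [Algebra κ Ω]
  (P Q : Submodule κ Ω) [FiniteDimensional κ P], P ≠ ⊥ → Q ≠ ⊥ →
  ∀ (D : ℕ) (q : Fin (D + 1) → Ω), Q = Submodule.span κ (Set.range q) → ∀ n0 : ℕ,
    (∀ n, (P ⊔ Q) ^ (n0 + n) ≤ P ^ n * (P ⊔ Q) ^ n0) →
    (∀ n, (P ⊔ Q) ^ (n0 + n) ≤ Q ^ n * (P ⊔ Q) ^ n0) → ∀ a b : ℕ,
    (∃ K, ∀ n ≥ K, Module.finrank κ (P ^ (n + 1) : Submodule κ Ω)
      = Module.finrank κ (P ^ n : Submodule κ Ω) + a) →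
    (∃ K, ∀ n ≥ K, Module.finrank κ (Q ^ (n + 1) : Submodule κ Ω)
      = Module.finrank κ (Q ^ n : Submodule κ Ω) + b) →
    ∃ ρ σ : ℕ, 0 < ρ ∧ 0 < σ ∧ ρ ≤ (n0 + D + 1).choose n0 ∧ ρ * a = σ * b

/-! ### Part 6: points on norm hypersurfaces -/

open Pool.Agent.Helper14C in
/-- points over `κ(T)` of the variety with coordinates `WW`, with `u t0 / v t0 = T`, on the norm
form -/
def S_count : Prop := ∀ (κ : Type) [Field κ] [CharZero κ]
  (_ : ∀ n : ℕ, n ≠ 0 → ∃ ζ : κ, IsPrimitiveRoot ζ n) (L : Type) [Field L]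
  [Algebra (FractionRing (Polynomial κ)) L] [FiniteDimensional (FractionRing (Polynomial κ)) L]
  (N : ℕ) (τ : Type) [Fintype τ] [DecidableEq τ] (m : τ → ℕ)
  (u v : τ → MvPolynomial (Fin (N + 1)) ℚ) (M1 : ℕ) (t0 : τ) (q : ℕ) (a : ℚ)
  (b : ℕ → Ix N τ M1 → κ) (w : Ix N τ M1 → L), 0 < N → 0 < q → 0 < M1 →
  (∀ t, (u t).IsHomogeneous (m t)) → (∀ t, (v t).IsHomogeneous (m t)) →
  AlgebraicIndependent ℚ (fun z : Fin q × Ix N τ M1 => b z.1 z.2) → w ≠ 0 →
  (∀ (d : ℕ) (F : MvPolynomial (Ix N τ M1) ℚ), F.IsHomogeneous d → aeval (WW u v M1) F = 0 →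
    ∀ ψ : ℚ →+* L, MvPolynomial.eval₂ ψ w F = 0) →
  (∀ (β : Ix N τ M1) (h : (β.2 t0 : ℕ) < M1), w (up t0 β h)
    = algebraMap (FractionRing (Polynomial κ)) L
        (algebraMap (Polynomial κ) (FractionRing (Polynomial κ)) Polynomial.X) * w β) →
  (mat q 1 (algebraMap (FractionRing (Polynomial κ)) L
        (algebraMap (Polynomial κ) (FractionRing (Polynomial κ)) Polynomial.X) - (a : L))
    (fun k => ∑ β ∈ Finset.univ.filter (fun β : Ix N τ M1 => (β.2 t0 : ℕ) < M1),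
      algebraMap (FractionRing (Polynomial κ)) L
        (algebraMap (Polynomial κ) (FractionRing (Polynomial κ)) (Polynomial.C (b k β))) *
        w β)).det = 0 →
    q ∣ (N - 1).factorial * Module.finrank (FractionRing (Polynomial κ)) L

end Pool.Agent.Helper14D
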