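import Mathlib
import Pool.Agent.Helper14C.Pts
import Pool.Agent.Helper14D.Stm

/-!
# Points of affine cones given by generators
-/

set_option autoImplicit false
set_option linter.unusedSectionVars false

open MvPolynomial

namespace Pool.Agent.Helper14D

variable {κ : Type} [Field κ] {X : Type} {G : Type}

/-- the point `p` satisfies all relations of the generators `g` -/
def Kill (g : G → MvPolynomial X κ) {R : Type} [CommRing R] [Algebra κ R] (p : G → R) : Prop :=
  ∀ F : MvPolynomial G κ, aeval g F = 0 → aeval p F = 0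

lemma Kill.comp {g : G → MvPolynomial X κ} {R R' : Type} [CommRing R] [Algebra κ R] [CommRing R']
    [Algebra κ R'] {p : G → R} (h : Kill g p) (ψ : R →ₐ[κ] R') : Kill g (fun i => ψ (p i)) := by
  intro F hF
  have h1 := congrArg ψ (h F hF)
  rw [map_zero] at h1
  rw [← h1, ← comp_aeval_apply]

/-- relations between some generators -/
lemma Kill.sub {g : G → MvPolynomial X κ} {R : Type} [CommRing R] [Algebra κ R]
    {p : G → R} (h : Kill g p) {ι : Type} (e : ι → G) (F : MvPolynomial ι κ)
    (hF : aeval (fun i => g (e i)) F = 0) : aeval (fun i => p (e i)) F = 0 := by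
  have h1 := h (rename e F) (by rw [aeval_rename]; exact hF)
  rw [aeval_rename] at h1
  exact h1

/-- an integral equation holds at the point -/
lemma Kill.eq {g : G → MvPolynomial X κ} {R : Type} [CommRing R] [Algebra κ R]
    {p : G → R} (h : Kill g p) {ι : Type} (e : ι → G) (i0 : G) (n : ℕ) (A : ℕ → MvPolynomial ι κ)
    (c : ℕ → ℕ)
    (hA : g i0 ^ n + ∑ i ∈ Finset.range n, aeval (fun i => g (e i)) (A i) * g i0 ^ (c i) = 0) :
    p i0 ^ n + ∑ i ∈ Finset.range n, aeval (fun i => p (e i)) (A i) * p i0 ^ (c i) = 0 := by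
  have h1 := h (MvPolynomial.X i0 ^ n + ∑ i ∈ Finset.range n, rename e (A i) * MvPolynomial.X i0 ^ (c i)) (by
    rw [← hA]
    simp only [map_add, map_pow, aeval_X, map_sum, map_mul, aeval_rename]
    rfl)
  rw [← h1]
  simp only [map_add, map_pow, aeval_X, map_sum, map_mul, aeval_rename]
  rfl

/-- scaling of homogeneous polynomials -/
lemma scale_hom {f : MvPolynomial X κ} {d : ℕ} (hf : f.IsHomogeneous d) :
    aeval (fun i => Polynomial.C (MvPolynomial.X i : MvPolynomial X κ) * Polynomial.X) f
      = Polynomial.C f * (Polynomial.X : Polynomial (MvPolynomial X κ)) ^ d := by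
  have h1 := Pool.Agent.Helper14C.aeval_scale (K := κ)
    (fun i => Polynomial.C (MvPolynomial.X i : MvPolynomial X κ)) Polynomial.X hf
  have h2 : aeval (fun i => Polynomial.C (MvPolynomial.X i : MvPolynomial X κ)) f
      = Polynomial.C f := by
    have h3 := comp_aeval_apply (R := κ) (MvPolynomial.X : X → MvPolynomial X κ)
      ((Polynomial.CAlgHom : MvPolynomial X κ →ₐ[MvPolynomial X κ] _).restrictScalars κ) f
    rw [aeval_X_left, AlgHom.id_apply] at h3
    exact h3.symm
  rw [h2] at h1
  have h3 : (fun i => Polynomial.C (MvPolynomial.X i : MvPolynomial X κ) *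
      (Polynomial.X : Polynomial (MvPolynomial X κ)))
      = fun i => Polynomial.X * Polynomial.C (MvPolynomial.X i) := funext fun i => mul_comm _ _
  rw [h3, h1, mul_comm]

/-- **Scaling.** -/
theorem Kill.scale {g : G → MvPolynomial X κ} {R : Type} [CommRing R] [Algebra κ R] {p : G → R}
    (h : Kill g p) (w : G → ℕ) (hw : ∀ i, (g i).IsHomogeneous (w i)) :
    Kill g (fun i => Polynomial.C (p i) * (Polynomial.X : Polynomial R) ^ w i) := by
  intro F hF
  let θ : MvPolynomial G κ →ₐ[κ] Polynomial (MvPolynomial G κ) :=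
    aeval (fun i => Polynomial.C (MvPolynomial.X i) * Polynomial.X ^ w i)
  have hmap : ∀ {S : Type} [CommRing S] [Algebra κ S] (r : G → S),
      Polynomial.mapAlgHom (aeval r : MvPolynomial G κ →ₐ[κ] S) (θ F)
        = aeval (fun i => Polynomial.C (r i) * (Polynomial.X : Polynomial S) ^ w i) F := by
    intro S _ _ r
    have h0 : (Polynomial.mapAlgHom (aeval r : MvPolynomial G κ →ₐ[κ] S)).comp θ
        = aeval (fun i => Polynomial.C (r i) * (Polynomial.X : Polynomial S) ^ w i) := by
      apply MvPolynomial.algHom_ext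
      intro i
      simp [θ]
    exact DFunLike.congr_fun h0 F
  have h1 : Polynomial.mapAlgHom (aeval g : MvPolynomial G κ →ₐ[κ] _) (θ F) = 0 := by
    rw [hmap]
    have h2 : (fun i => Polynomial.C (g i) * (Polynomial.X : Polynomial (MvPolynomial X κ)) ^ w i)
        = fun i => aeval (fun i => Polynomial.C (MvPolynomial.X i : MvPolynomial X κ) *
          Polynomial.X) (g i) := by
      funext i
      rw [scale_hom (hw i)]
    rw [h2, ← comp_aeval_apply, hF, map_zero]
  rw [← hmap]
  ext n
  rw [Polynomial.coe_mapAlgHom, Polynomial.coeff_map, Polynomial.coeff_zero]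
  apply h
  have h2 := congrArg (fun f => Polynomial.coeff f n) h1
  rw [Polynomial.coe_mapAlgHom] at h2
  simp only [Polynomial.coeff_map, Polynomial.coeff_zero] at h2
  exact h2

end Pool.Agent.Helper14D
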