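import Mathlib
import Pool.Agent.Helper14D.Stm
import Pool.Agent.Helper14C.Pt2

/-!
# Curves on very general hypersurfaces of degree `q * a`, `a ≥ a0(N)`: statements of the parts, II
-/

set_option autoImplicit false

open MvPolynomial

namespace Pool.Agent.Helper14D

open Pool.Agent.Helper14C Pool.Agent.TH922.KC

/-- the equations of the variety with coordinates `WW`, the relations `u t0 / v t0 = T`, and `s` -/
def SV {N : ℕ} {τ : Type} [Fintype τ] [DecidableEq τ] (u v : τ → MvPolynomial (Fin (N + 1)) ℚ)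
    (M1 : ℕ) {R : Type} [CommRing R] (T : R) (t0 : τ) (s : MvPolynomial (Ix N τ M1) R) :
    Set (MvPolynomial (Ix N τ M1) R) :=
  {p | (∃ (d : ℕ) (F : MvPolynomial (Ix N τ M1) ℚ) (ψ : ℚ →+* R), F.IsHomogeneous d ∧
        aeval (WW u v M1) F = 0 ∧ MvPolynomial.map ψ F = p) ∨
      (∃ (β : Ix N τ M1) (h : (β.2 t0 : ℕ) < M1), X (up t0 β h) - C T * X β = p) ∨ s = p}

/-- **Generic sections.** -/
def S_spec : Prop := ∀ (κ1 k0 : Type) [Field κ1] [Field k0] [CharZero k0] [Algebra k0 κ1]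
  (_ : ∀ n : ℕ, n ≠ 0 → ∃ ζ : k0, IsPrimitiveRoot ζ n)
  (N : ℕ) (τ : Type) [Fintype τ] [DecidableEq τ] (m : τ → ℕ)
  (u v : τ → MvPolynomial (Fin (N + 1)) ℚ) (M1 : ℕ) (q : ℕ)
  (b : ℕ → Ix N τ M1 → k0) (c : It (Ix N τ M1) q → κ1) (t0 : τ), 0 < N → 0 < q → 0 < M1 →
  (∀ t, (u t).IsHomogeneous (m t)) → (∀ t, (v t).IsHomogeneous (m t)) →
  AlgebraicIndependent ℚ (fun z : Fin q × Ix N τ M1 => b z.1 z.2) →
  AlgebraicIndependent k0 c →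
  Idx (FractionRing (Polynomial κ1)) (SV u v M1
    (algebraMap (Polynomial κ1) (FractionRing (Polynomial κ1)) Polynomial.X) t0
    (MvPolynomial.map ((algebraMap (Polynomial κ1) (FractionRing (Polynomial κ1))).comp
      Polynomial.C) (tp (Ix N τ M1) κ1 q c))) q (N - 1).factorial

/-- **Comparison of slopes.** -/
def S_cmp : Prop := ∀ (κ Ω : Type) [Field κ] [Field Ω] [Algebra κ Ω] (N D kk : ℕ)
  (y : Fin (N + 1) → Ω) (U : Fin (D + 1) → Ω), 0 < kk → y ≠ 0 → U ≠ 0 →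
  ∀ nU : Fin (D + 1) → ℕ, (∀ j, 0 < nU j) →
  (∀ j, ∃ A : ℕ → MvPolynomial (Fin (N + 1)) κ, (∀ i, (A i).IsHomogeneous (kk * i)) ∧
    U j ^ nU j + ∑ i ∈ Finset.range (nU j), aeval y (A (i + 1)) * U j ^ (nU j - 1 - i) = 0) →
  ∀ nY : It (Fin (N + 1)) kk → ℕ, (∀ α, 0 < nY α) →
  (∀ α : It (Fin (N + 1)) kk,
    ∃ A : ℕ → MvPolynomial (Fin (D + 1)) κ, (∀ i, (A i).IsHomogeneous i) ∧
    (aeval y (monomial α.1 (1 : κ))) ^ nY α + ∑ i ∈ Finset.range (nY α),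
      aeval U (A (i + 1)) * (aeval y (monomial α.1 (1 : κ))) ^ (nY α - 1 - i) = 0) →
  ∀ n0 : ℕ, n0 = ∑ j, nU j + ∑ α, nY α →
  (∃ C : ℕ, ∀ t, Module.finrank κ (V κ y t) ≤ C * (t + 1)) →
    (∃ C : ℕ, ∀ t, Module.finrank κ (V κ U t) ≤ C * (t + 1)) ∧
    ∃ a b ρ σ : ℕ,
      (∃ K, ∀ n ≥ K, Module.finrank κ (V κ y (n + 1)) = Module.finrank κ (V κ y n) + a) ∧
      (∃ K, ∀ n ≥ K, Module.finrank κ (V κ U (n + 1)) = Module.finrank κ (V κ U n) + b) ∧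
      0 < ρ ∧ 0 < σ ∧ ρ ≤ (n0 + D + 1).choose n0 ∧ ρ * (kk * a) = σ * b

end Pool.Agent.Helper14D
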