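import Mathlib
import Pool.Agent.Helper14D.Kill
import Pool.Agent.Helper14D.Stm2

/-!
# Extension of points
-/

set_option autoImplicit false
set_option linter.unusedSectionVars false

open MvPolynomial

namespace Pool.Agent.Helper14D

lemma mem_adj {κ R : Type} [Field κ] [CommRing R] [Algebra κ R] {ι : Type} {a : ι → R} {x : R}
    (hx : x ∈ Algebra.adjoin κ (Set.range a)) : ∃ A : MvPolynomial ι κ, aeval a A = x := by
  rw [Algebra.adjoin_range_eq_range_aeval] at hx
  exact hx

/-- integrality in terms of equations -/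
lemma int_iff {κ R : Type} [Field κ] [CommRing R] [Algebra κ R] {ι : Type} (a : ι → R) (x : R) :
    IsIntegral (Algebra.adjoin κ (Set.range a)) x ↔
      ∃ (n : ℕ) (A : ℕ → MvPolynomial ι κ),
        x ^ n + ∑ i ∈ Finset.range n, aeval a (A i) * x ^ i = 0 := by
  constructor
  · rintro ⟨P, hP, h⟩
    have h1 : ∀ i, ∃ A : MvPolynomial ι κ, aeval a A = ((P.coeff i : Algebra.adjoin κ (Set.range a)) : R) := by
      intro i
      exact mem_adj (P.coeff i).2
    choose A hA using h1
    refine ⟨P.natDegree, A, ?_⟩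
    rw [Polynomial.eval₂_eq_sum_range, Finset.sum_range_succ, hP.coeff_natDegree, map_one, one_mul,
      add_comm] at h
    rw [← h]
    congr 1
    refine Finset.sum_congr rfl fun i _ => ?_
    rw [hA]
    rfl
  · rintro ⟨n, A, h⟩
    have hmem : ∀ i, aeval a (A i) ∈ Algebra.adjoin κ (Set.range a) := by
      intro i
      rw [Algebra.adjoin_range_eq_range_aeval]
      exact ⟨A i, rfl⟩
    set Q : Polynomial (Algebra.adjoin κ (Set.range a)) :=
      ∑ i ∈ Finset.range n, Polynomial.C ⟨aeval a (A i), hmem i⟩ * Polynomial.X ^ i with hQ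
    have hdeg : Q.degree < n := by
      rw [Polynomial.degree_lt_iff_coeff_zero]
      intro k hk
      rw [hQ, Polynomial.finsetSum_coeff]
      refine Finset.sum_eq_zero fun i hi => ?_
      rw [Polynomial.coeff_C_mul_X_pow, if_neg]
      have := Finset.mem_range.mp hi
      omega
    refine ⟨Polynomial.X ^ n + Q, Polynomial.monic_X_pow_add hdeg, ?_⟩
    rw [Polynomial.eval₂_add, Polynomial.eval₂_X_pow, hQ, Polynomial.eval₂_finsetSum, ← h]
    congr 1
    refine Finset.sum_congr rfl fun i _ => ?_
    rw [Polynomial.eval₂_mul, Polynomial.eval₂_C, Polynomial.eval₂_X_pow]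
    rfl

/-- base change of equations -/
lemma int_map {κ κ' R R' : Type} [Field κ] [Field κ'] [CommRing R] [Algebra κ R] [CommRing R']
    [Algebra κ' R'] (φ : κ →+* κ') (ψ : R →+* R') (hφ : ∀ c, ψ (algebraMap κ R c)
      = algebraMap κ' R' (φ c)) {ι : Type} (a : ι → R) (F : MvPolynomial ι κ) :
    aeval (fun i => ψ (a i)) (MvPolynomial.map φ F) = ψ (aeval a F) := by
  induction F using MvPolynomial.induction_on with
  | C c => rw [map_C, aeval_C, aeval_C, hφ]
  | add f g hf hg => rw [map_add, map_add, map_add, map_add, hf, hg]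
  | mul_X f i hf => rw [map_mul, map_mul, map_mul, map_mul, map_X, aeval_X, aeval_X, hf]

lemma int_bc {κ κ' R R' : Type} [Field κ] [Field κ'] [CommRing R] [Algebra κ R] [CommRing R']
    [Algebra κ' R'] (φ : κ →+* κ') (ψ : R →+* R') (hφ : ∀ c, ψ (algebraMap κ R c)
      = algebraMap κ' R' (φ c)) {ι : Type} (a : ι → R) (x : R)
    (h : IsIntegral (Algebra.adjoin κ (Set.range a)) x) :
    IsIntegral (Algebra.adjoin κ' (Set.range fun i => ψ (a i))) (ψ x) := by
  rw [int_iff] at h ⊢
  obtain ⟨n, A, hA⟩ := h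
  refine ⟨n, fun i => MvPolynomial.map φ (A i), ?_⟩
  have h1 := congrArg ψ hA
  rw [map_zero, map_add, map_pow, map_sum] at h1
  rw [← h1]
  congr 1
  refine Finset.sum_congr rfl fun i _ => ?_
  rw [int_map φ ψ hφ, map_mul, map_pow]

lemma int_mono {κ R : Type} [Field κ] [CommRing R] [Algebra κ R] {S S' : Set R} (hS : S ⊆ S')
    {x : R} (h : IsIntegral (Algebra.adjoin κ S) x) : IsIntegral (Algebra.adjoin κ S') x := by
  refine h.map_of_comp_eq (Subalgebra.inclusion (Algebra.adjoin_mono hS)).toRingHom (RingHom.id R) ?_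
  ext z
  rfl

lemma int_trans {κ R : Type} [Field κ] [CommRing R] [Algebra κ R] {S S' : Set R}
    (hS : ∀ x ∈ S, IsIntegral (Algebra.adjoin κ S') x)
    {x : R} (h : IsIntegral (Algebra.adjoin κ S) x) : IsIntegral (Algebra.adjoin κ S') x := by
  set A := Algebra.adjoin κ S' with hA
  have h1 : Algebra.adjoin κ S ≤ (integralClosure A R).restrictScalars κ :=
    Algebra.adjoin_le fun x hx => hS x hx
  have h2 : IsIntegral (integralClosure A R) x := by
    refine h.map_of_comp_eq ((Subalgebra.inclusion h1).toRingHom) (RingHom.id R) ?_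
    ext z
    rfl
  exact isIntegral_trans (R := A) (A := integralClosure A R) x h2

/-- **Extension of points.** -/
theorem ext_pt (hext : S_ext) {κ R E : Type} [Field κ] [CommRing R] [Algebra κ R] [Field E]
    [IsAlgClosed E] [Algebra κ E] {ι G : Type} (a : ι → R) (p : G → R)
    (hp : ∀ i, IsIntegral (Algebra.adjoin κ (Set.range a)) (p i)) (z : ι → E)
    (hz : ∀ F : MvPolynomial ι κ, aeval a F = 0 → aeval z F = 0) :
    ∃ r : G → E, ∀ F : MvPolynomial (ι ⊕ G) κ, aeval (Sum.elim a p) F = 0 →
      aeval (Sum.elim z r) F = 0 := by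
  classical
  set A := Algebra.adjoin κ (Set.range a) with hA
  let B := Algebra.adjoin A (Set.range p)
  have hint : Algebra.IsIntegral A B :=
    le_integralClosure_iff_isIntegral.mp (Algebra.adjoin_le (by
      rintro _ ⟨i, rfl⟩
      exact hp i))
  have haA : ∀ F : MvPolynomial ι κ, aeval a F ∈ A := by
    intro F
    rw [hA, Algebra.adjoin_range_eq_range_aeval]
    exact ⟨F, rfl⟩
  let φ : MvPolynomial ι κ →+* A := ((aeval a : MvPolynomial ι κ →ₐ[κ] R).codRestrict A haA).toRingHom
  have hφ : ∀ F, ((φ F : A) : R) = aeval a F := fun F => rfl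
  have hφs : Function.Surjective φ := by
    rintro ⟨x, hx⟩
    have hx' := hx
    rw [hA, Algebra.adjoin_range_eq_range_aeval] at hx'
    obtain ⟨F, hF⟩ := hx'
    exact ⟨F, Subtype.ext hF⟩
  have hker : RingHom.ker φ ≤ RingHom.ker (aeval z : MvPolynomial ι κ →ₐ[κ] E).toRingHom := by
    intro F hF
    exact hz F (congrArg Subtype.val hF)
  let g0 : A →+* E := RingHom.liftOfSurjective φ hφs ⟨(aeval z : MvPolynomial ι κ →ₐ[κ] E).toRingHom, hker⟩
  have hg0 : ∀ F, g0 (φ F) = aeval z F := fun F =>
    RingHom.liftOfRightInverse_comp_apply φ _ (Function.rightInverse_surjInv hφs)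
      ⟨(aeval z : MvPolynomial ι κ →ₐ[κ] E).toRingHom, hker⟩ F
  obtain ⟨g', hg'⟩ := hext A B E (by
    intro x y hxy
    exact Subtype.ext (congrArg (fun z : B => (z : R)) hxy)) g0
  have hg'' : ∀ x : A, g' (algebraMap A B x) = g0 x := fun x => DFunLike.congr_fun hg' x
  let r : G → E := fun i => g' ⟨p i, Algebra.subset_adjoin ⟨i, rfl⟩⟩
  refine ⟨r, fun F hF => ?_⟩
  let Θ : MvPolynomial (ι ⊕ G) κ →+* B := eval₂Hom ((algebraMap A B).comp (algebraMap κ A))
    (Sum.elim (fun i => algebraMap A B (φ (X i))) (fun i => ⟨p i, Algebra.subset_adjoin ⟨i, rfl⟩⟩))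
  have h1 : ∀ F, ((Θ F : B) : R) = aeval (Sum.elim a p) F := by
    intro F
    induction F using MvPolynomial.induction_on with
    | C c =>
      simp only [Θ, coe_eval₂Hom, eval₂_C, aeval_C]
      rfl
    | add f g hf hg => rw [map_add, map_add, ← hf, ← hg]; rfl
    | mul_X f i hf =>
      rw [map_mul, map_mul, ← hf, aeval_X]
      rcases i with i | i
      · have : Θ (X (Sum.inl i)) = algebraMap A B (φ (X i)) := by simp [Θ]
        rw [this]
        have h2 : ((φ (X i) : A) : R) = a i := by rw [hφ, aeval_X]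
        change (Θ f : R) * ((φ (X i) : A) : R) = _
        rw [h2]
        rfl
      · have : Θ (X (Sum.inr i)) = ⟨p i, Algebra.subset_adjoin ⟨i, rfl⟩⟩ := by simp [Θ]
        rw [this]
        rfl
  have h2 : ∀ F, g' (Θ F) = aeval (Sum.elim z r) F := by
    intro F
    induction F using MvPolynomial.induction_on with
    | C c =>
      have : Θ (C c) = algebraMap A B (φ (C c)) := by
        simp only [Θ, coe_eval₂Hom, eval₂_C]
        rw [RingHom.comp_apply]
        congr 1
        apply Subtype.ext
        rw [hφ, aeval_C]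
        rfl
      rw [this, hg'', hg0, aeval_C, aeval_C]
    | add f g hf hg => rw [map_add, map_add, map_add, hf, hg]
    | mul_X f i hf =>
      rw [map_mul, map_mul, map_mul, hf, aeval_X]
      congr 1
      rcases i with i | i
      · have : Θ (X (Sum.inl i)) = algebraMap A B (φ (X i)) := by simp [Θ]
        rw [this, hg'', hg0, aeval_X]
        rfl
      · have : Θ (X (Sum.inr i)) = ⟨p i, Algebra.subset_adjoin ⟨i, rfl⟩⟩ := by simp [Θ]
        rw [this]
        rfl
  rw [← h2]
  have h3 : Θ F = 0 := by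
    apply Subtype.ext
    rw [h1, hF]
    rfl
  rw [h3, map_zero]

/-- integrality at points -/
lemma Kill.int {κ : Type} [Field κ] {X G : Type} {g : G → MvPolynomial X κ} {R : Type} [CommRing R]
    [Algebra κ R] {p : G → R} (h : Kill g p) {ι : Type} (e : ι → G) (i0 : G)
    (hi : IsIntegral (Algebra.adjoin κ (Set.range fun i => g (e i))) (g i0)) :
    IsIntegral (Algebra.adjoin κ (Set.range fun i => p (e i))) (p i0) := by
  rw [int_iff] at hi ⊢
  obtain ⟨n, A, hA⟩ := hi
  exact ⟨n, A, h.eq e i0 n A (fun i => i) hA⟩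

/-- **The generic point of a component of the norm hypersurface.** -/
theorem glift (hext : S_ext) (hbc : S_bc) {K κ : Type} [Field K] [Field κ] (φ : K →+* κ) {N : ℕ}
    (y : Fin (N + 1) → MvPolynomial (Fin (N + 1)) K) (s G : MvPolynomial (Fin (N + 1)) K)
    (hG : ∀ F : MvPolynomial (Option (Fin (N + 1))) K, aeval (fun o => Option.elim o s y) F = 0 →
        G ∣ aeval (fun o => Option.elim o (0 : MvPolynomial (Fin (N + 1)) K) X) F)
    (P : Ideal (MvPolynomial (Fin (N + 1)) κ)) (hP : P.IsPrime) (hGP : MvPolynomial.map φ G ∈ P)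
    {GG : Type} (g : GG → MvPolynomial (Fin (N + 1)) κ)
    (hg : ∀ i, IsIntegral (Algebra.adjoin κ (Set.range fun j => MvPolynomial.map φ (y j))) (g i)) :
    ∃ (Ω : Type) (_ : Field Ω) (_ : Algebra κ Ω) (yb : Fin (N + 1) → Ω) (p : GG → Ω),
      Kill (Sum.elim (fun j => MvPolynomial.map φ (y j)) g) (Sum.elim yb p) ∧
      (∀ f, aeval yb f = 0 ↔ f ∈ P) ∧
      ∀ F : MvPolynomial GG κ, aeval g F = MvPolynomial.map φ s → aeval p F = 0 := by
  classical
  let Ω0 := FractionRing (MvPolynomial (Fin (N + 1)) κ ⧸ P)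
  let Ω := AlgebraicClosure Ω0
  let yb : Fin (N + 1) → Ω := fun j => algebraMap Ω0 Ω (algebraMap (MvPolynomial (Fin (N + 1)) κ ⧸ P) Ω0
    (Ideal.Quotient.mk P (X j)))
  have hyb : ∀ f : MvPolynomial (Fin (N + 1)) κ, aeval yb f
      = algebraMap Ω0 Ω (algebraMap (MvPolynomial (Fin (N + 1)) κ ⧸ P) Ω0 (Ideal.Quotient.mk P f)) := by
    intro f
    induction f using MvPolynomial.induction_on with
    | C c =>
      rw [aeval_C]
      rfl
    | add f g hf hg => rw [map_add, map_add, map_add, map_add, hf, hg]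
    | mul_X f i hf => rw [map_mul, map_mul, map_mul, map_mul, aeval_X, hf]
  have hybP : ∀ f, aeval yb f = 0 ↔ f ∈ P := by
    intro f
    rw [hyb, map_eq_zero, map_eq_zero_iff _ (IsFractionRing.injective (MvPolynomial (Fin (N + 1)) κ ⧸ P) Ω0),
      Ideal.Quotient.eq_zero_iff_mem]
  have hel : ∀ o : Option (Fin (N + 1)), Option.elim o (MvPolynomial.map φ s)
      (fun j => MvPolynomial.map φ (y j)) = MvPolynomial.map φ (Option.elim o s y) := by
    intro o
    cases o <;> rfl
  obtain ⟨r, hr⟩ := ext_pt hext (E := Ω) (fun o => Option.elim o (MvPolynomial.map φ s)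
      (fun j => MvPolynomial.map φ (y j))) g (fun i => int_mono (by
        rintro _ ⟨j, rfl⟩
        exact ⟨some j, rfl⟩) (hg i)) (fun o => Option.elim o 0 yb) (by
    intro F hF
    simp only [hel] at hF
    have h1 := hbc K κ φ (Option (Fin (N + 1))) (Fin (N + 1)) (fun o => Option.elim o s y) F hF
    have h2 : Ideal.map (MvPolynomial.map φ) (RingHom.ker
        (aeval (fun o => Option.elim o s y) : MvPolynomial (Option (Fin (N + 1))) K →ₐ[K] _))
        ≤ RingHom.ker (aeval (fun o => Option.elim o 0 yb) :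
          MvPolynomial (Option (Fin (N + 1))) κ →ₐ[κ] Ω) := by
      rw [Ideal.map_le_iff_le_comap]
      intro F0 hF0
      rw [Ideal.mem_comap, RingHom.mem_ker]
      obtain ⟨H, hH⟩ := hG F0 hF0
      have h3 : aeval (fun o => Option.elim o 0 yb) (MvPolynomial.map φ F0)
          = aeval yb (MvPolynomial.map φ
            (aeval (fun o => Option.elim o (0 : MvPolynomial (Fin (N + 1)) K) X) F0)) := by
        clear hH hF0
        induction F0 using MvPolynomial.induction_on with
        | C c => simp
        | add f g hf hg => simp only [map_add, hf, hg]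
        | mul_X f i hf =>
          rw [map_mul, map_mul, map_mul, map_mul, map_mul, hf]
          congr 1
          cases i <;> simp
      rw [h3, hH, map_mul, hybP]
      exact P.mul_mem_right _ hGP
    exact h2 h1)
  refine ⟨Ω, inferInstance, inferInstance, yb, r, ?_, hybP, ?_⟩
  · intro F hF
    have h1 := hr (rename (Sum.map some id) F) (by
      rw [aeval_rename]
      rw [← hF]
      congr 2
      funext i
      rcases i with i | i <;> rfl)
    rw [aeval_rename] at h1
    rw [← h1]
    congr 2
    funext i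
    rcases i with i | i <;> rfl
  · intro F hF
    have h1 := hr (rename Sum.inr F - X (Sum.inl none)) (by
      rw [map_sub, aeval_rename, aeval_X, sub_eq_zero]
      exact hF)
    rw [map_sub, aeval_rename, aeval_X, sub_eq_zero] at h1
    exact h1

end Pool.Agent.Helper14D
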