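import Mathlib
import Pool.Agent.Helper14D.Ext

/-!
# Homogeneity of the generators, and the identity of the `UU`
-/

set_option autoImplicit false
set_option linter.unusedSectionVars false

open MvPolynomial

namespace Pool.Agent.Helper14D

/-- all coefficients homogeneous of the same degree -/
def HomC {X R : Type} [CommRing R] (P : Polynomial (MvPolynomial X R)) (d : ℕ) : Prop :=
  ∀ j, (P.coeff j).IsHomogeneous d

section

variable {X R : Type} [CommRing R]

lemma HomC.mul {P Q : Polynomial (MvPolynomial X R)} {d e : ℕ} (hP : HomC P d) (hQ : HomC Q e) :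
    HomC (P * Q) (d + e) := by
  intro j
  rw [Polynomial.coeff_mul]
  exact IsHomogeneous.sum _ _ _ fun z _ => (hP z.1).mul (hQ z.2)

lemma HomC.one : HomC (1 : Polynomial (MvPolynomial X R)) 0 := by
  intro j
  rw [Polynomial.coeff_one]
  split_ifs
  · exact isHomogeneous_one X R
  · exact isHomogeneous_zero X R 0

lemma HomC.pow {P : Polynomial (MvPolynomial X R)} {d : ℕ} (hP : HomC P d) (n : ℕ) :
    HomC (P ^ n) (d * n) := by
  induction n with
  | zero => rw [pow_zero, mul_zero]; exact HomC.one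
  | succ n ih => rw [pow_succ, Nat.mul_succ]; exact ih.mul hP

lemma HomC.prod {ι : Type} (S : Finset ι) (P : ι → Polynomial (MvPolynomial X R)) (d : ι → ℕ)
    (h : ∀ i ∈ S, HomC (P i) (d i)) : HomC (∏ i ∈ S, P i) (∑ i ∈ S, d i) := by
  classical
  induction S using Finset.induction_on with
  | empty => rw [Finset.prod_empty, Finset.sum_empty]; exact HomC.one
  | insert i S hi ih =>
    rw [Finset.prod_insert hi, Finset.sum_insert hi]
    exact (h i (Finset.mem_insert_self _ _)).mul (ih fun j hj => h j (Finset.mem_insert_of_mem hj))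

lemma homC_lin {u v : MvPolynomial X R} {m : ℕ} (hu : u.IsHomogeneous m) (hv : v.IsHomogeneous m) :
    HomC (Polynomial.C u - Polynomial.X * Polynomial.C v) m := by
  intro j
  rw [Polynomial.coeff_sub, mul_comm, Polynomial.coeff_C_mul, Polynomial.coeff_C,
    Polynomial.coeff_X]
  refine IsHomogeneous.sub ?_ ?_
  · split_ifs
    · exact hu
    · exact isHomogeneous_zero X R m
  · split_ifs
    · rw [mul_one]; exact hv
    · rw [mul_zero]; exact isHomogeneous_zero X R m

end

section data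

variable {N : ℕ} {τ : Type} [Fintype τ] [DecidableEq τ] {m : τ → ℕ}
  {u v : τ → MvPolynomial (Fin (N + 1)) ℚ} {M1 : ℕ} {b : τ → ℕ}

lemma UU_hom (hu : ∀ t, (u t).IsHomogeneous (m t)) (hv : ∀ t, (v t).IsHomogeneous (m t)) (j : ℕ) :
    ((UU u v b).coeff j).IsHomogeneous (∑ t, m t * b t) :=
  HomC.prod _ _ _ (fun t _ => (homC_lin (hu t) (hv t)).pow (b t)) j

lemma UU_deg : (UU u v b).natDegree ≤ ∑ t, b t := by
  unfold UU
  refine (Polynomial.natDegree_prod_le _ _).trans ?_
  refine Finset.sum_le_sum fun t _ => ?_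
  refine Polynomial.natDegree_pow_le.trans ?_
  have h1 : (Polynomial.C (u t) - Polynomial.X * Polynomial.C (v t)).natDegree ≤ 1 := by
    refine (Polynomial.natDegree_sub_le _ _).trans ?_
    rw [Polynomial.natDegree_C]
    refine max_le (Nat.zero_le _) ?_
    rw [mul_comm]
    exact (Polynomial.natDegree_C_mul_le _ _).trans Polynomial.natDegree_X_le
  calc b t * _ ≤ b t * 1 := Nat.mul_le_mul_left _ h1
    _ = b t := mul_one _

lemma WW_hom (hu : ∀ t, (u t).IsHomogeneous (m t)) (hv : ∀ t, (v t).IsHomogeneous (m t))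
    (β : Ix N τ M1) : (WW u v M1 β).IsHomogeneous (1 + M1 * ∑ t, m t) := by
  unfold WW
  refine (isHomogeneous_X ℚ β.1).mul ?_
  rw [Finset.mul_sum]
  refine IsHomogeneous.prod _ _ _ fun t _ => ?_
  have h1 := ((hu t).pow (β.2 t : ℕ)).mul ((hv t).pow (M1 - (β.2 t : ℕ)))
  have h2 : m t * (β.2 t : ℕ) + m t * (M1 - (β.2 t : ℕ)) = M1 * m t := by
    rw [← Nat.mul_add, Nat.add_sub_cancel' (Nat.lt_succ_iff.mp (β.2 t).2), mul_comm]
  rw [h2] at h1
  exact h1

lemma wp_hom (hu : ∀ t, (u t).IsHomogeneous (m t)) (hv : ∀ t, (v t).IsHomogeneous (m t)) (t : τ)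
    (β : Ix N τ M1) : ∃ e, (wp u v M1 t β).IsHomogeneous e := by
  unfold wp
  refine ⟨_, (isHomogeneous_X ℚ β.1).mul ((((hu t).pow _).mul ((hv t).pow _)).mul
    (IsHomogeneous.prod _ _ _ fun t' _ => ((hu t').pow _).mul ((hv t').pow _)))⟩

lemma v_wp (t : τ) (β : Ix N τ M1) (h : (β.2 t : ℕ) < M1) : v t * wp u v M1 t β = WW u v M1 β := by
  unfold wp WW
  rw [← Finset.mul_prod_erase Finset.univ _ (Finset.mem_univ t)]
  have h1 : M1 - (β.2 t : ℕ) = (M1 - 1 - (β.2 t : ℕ)) + 1 := by omega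
  rw [h1, pow_succ]
  ring

lemma u_wp (t : τ) (β : Ix N τ M1) (h : (β.2 t : ℕ) < M1) :
    u t * wp u v M1 t β = WW u v M1 (up t β h) := by
  unfold wp WW up
  rw [← Finset.mul_prod_erase Finset.univ _ (Finset.mem_univ t)]
  simp only [Function.update_self]
  have h1 : M1 - ((β.2 t : ℕ) + 1) = (M1 - 1 - (β.2 t : ℕ)) := by omega
  rw [h1, pow_succ]
  have h2 : ∏ t' ∈ Finset.univ.erase t, (u t' ^ (Function.update β.2 t ⟨(β.2 t : ℕ) + 1, by omega⟩ t' : ℕ)
      * v t' ^ (M1 - (Function.update β.2 t ⟨(β.2 t : ℕ) + 1, by omega⟩ t' : ℕ)))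
      = ∏ t' ∈ Finset.univ.erase t, (u t' ^ (β.2 t' : ℕ) * v t' ^ (M1 - (β.2 t' : ℕ))) := by
    refine Finset.prod_congr rfl fun t' ht' => ?_
    rw [Function.update_of_ne (Finset.ne_of_mem_erase ht')]
  rw [h2]
  ring

/-- the identity of the `UU` -/
lemma UU_id (γ : τ → Ix N τ M1) (h : ∀ t, ((γ t).2 t : ℕ) < M1) :
    UU u v b * Polynomial.C (∏ t, wp u v M1 t (γ t) ^ b t)
      = ∏ t, (Polynomial.C (WW u v M1 (up t (γ t) (h t))) -
          Polynomial.X * Polynomial.C (WW u v M1 (γ t))) ^ b t := by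
  unfold UU
  rw [map_prod, ← Finset.prod_mul_distrib]
  refine Finset.prod_congr rfl fun t _ => ?_
  rw [map_pow, ← mul_pow, ← u_wp t (γ t) (h t), ← v_wp t (γ t) (h t), map_mul, map_mul]
  ring

end data

/-- the index set of the tuples of sections -/
abbrev Gm (N : ℕ) (τ : Type) (M1 : ℕ) : Type := {γ : τ → Ix N τ M1 // ∀ t, ((γ t).2 t : ℕ) < M1}

/-- the index set of the generators -/
abbrev GI (N : ℕ) (τ : Type) [Fintype τ] (M1 : ℕ) (b : τ → ℕ) : Type :=
  Ix N τ M1 ⊕ (Fin (∑ t, b t + 1) ⊕ Gm N τ M1)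

/-- the generators -/
noncomputable def g0 {N : ℕ} {τ : Type} [Fintype τ] [DecidableEq τ]
    (u v : τ → MvPolynomial (Fin (N + 1)) ℚ) (M1 : ℕ) (b : τ → ℕ) :
    GI N τ M1 b → MvPolynomial (Fin (N + 1)) ℚ :=
  Sum.elim (WW u v M1) (Sum.elim (fun j => (UU u v b).coeff (j : ℕ))
    (fun γ => ∏ t, wp u v M1 t (γ.1 t) ^ b t))

section

variable {N : ℕ} {τ : Type} [Fintype τ] [DecidableEq τ] {m : τ → ℕ}
  {u v : τ → MvPolynomial (Fin (N + 1)) ℚ} {M1 : ℕ} {b : τ → ℕ}

/-- the identity of the `UU` at points -/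
theorem U_pt {κ E : Type} [Field κ] [CommRing E] [Algebra κ E] (φ : ℚ →+* κ)
    (p : GI N τ M1 b → E)
    (hp : Kill (fun i => MvPolynomial.map φ (g0 u v M1 b i)) p) (γ : Gm N τ M1) (T : E) :
    (∑ j : Fin (∑ t, b t + 1), T ^ (j : ℕ) * p (Sum.inr (Sum.inl j))) * p (Sum.inr (Sum.inr γ))
      = ∏ t, (p (Sum.inl (up t (γ.1 t) (γ.2 t))) - T * p (Sum.inl (γ.1 t))) ^ b t := by
  classical
  let F : Polynomial (MvPolynomial (GI N τ M1 b) κ) :=
    (∑ j : Fin (∑ t, b t + 1), Polynomial.C (X (Sum.inr (Sum.inl j))) * Polynomial.X ^ (j : ℕ)) *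
      Polynomial.C (X (Sum.inr (Sum.inr γ))) -
    ∏ t, (Polynomial.C (X (Sum.inl (up t (γ.1 t) (γ.2 t)))) -
      Polynomial.X * Polynomial.C (X (Sum.inl (γ.1 t)))) ^ b t
  have h1 : Polynomial.map ((aeval (fun i => MvPolynomial.map φ (g0 u v M1 b i)) :
      MvPolynomial (GI N τ M1 b) κ →ₐ[κ] MvPolynomial (Fin (N + 1)) κ) :
      MvPolynomial (GI N τ M1 b) κ →+* MvPolynomial (Fin (N + 1)) κ) F = 0 := by
    simp only [F, Polynomial.map_sub, Polynomial.map_mul, Polynomial.map_sum, Polynomial.map_C,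
      Polynomial.map_pow, Polynomial.map_X, Polynomial.map_prod, RingHom.coe_coe, aeval_X]
    simp only [g0, Sum.elim_inl, Sum.elim_inr]
    have h2 : ∑ j : Fin (∑ t, b t + 1), Polynomial.C (MvPolynomial.map φ ((UU u v b).coeff (j : ℕ))) *
        Polynomial.X ^ (j : ℕ) = Polynomial.map (MvPolynomial.map φ) (UU u v b) := by
      rw [Finset.sum_range (fun j => Polynomial.C (MvPolynomial.map φ ((UU u v b).coeff j)) *
        Polynomial.X ^ j) |>.symm]
      have h3 := Polynomial.as_sum_range' (Polynomial.map (MvPolynomial.map φ) (UU u v b))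
        (∑ t, b t + 1) (Nat.lt_succ_of_le (Polynomial.natDegree_map_le.trans UU_deg))
      conv_rhs => rw [h3]
      refine Finset.sum_congr rfl fun j _ => ?_
      rw [Polynomial.C_mul_X_pow_eq_monomial, Polynomial.coeff_map]
    rw [h2]
    have h4 := congrArg (Polynomial.map (MvPolynomial.map φ)) (UU_id (u := u) (v := v) (b := b) γ.1 γ.2)
    rw [Polynomial.map_mul, Polynomial.map_C, Polynomial.map_prod] at h4
    rw [h4, sub_eq_zero]
    refine Finset.prod_congr rfl fun t _ => ?_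
    rw [Polynomial.map_pow, Polynomial.map_sub, Polynomial.map_mul, Polynomial.map_C,
      Polynomial.map_C, Polynomial.map_X]
  have h5 : Polynomial.map ((aeval p : MvPolynomial (GI N τ M1 b) κ →ₐ[κ] E) : MvPolynomial (GI N τ M1 b) κ →+* E) F = 0 := by
    ext k
    rw [Polynomial.coeff_map, Polynomial.coeff_zero]
    apply hp
    have h6 := congrArg (fun f => Polynomial.coeff f k) h1
    simp only [Polynomial.coeff_map, Polynomial.coeff_zero] at h6
    exact h6
  have h6 := congrArg (Polynomial.eval T) h5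
  simp only [F, Polynomial.map_sub, Polynomial.map_mul, Polynomial.map_sum, Polynomial.map_C,
      Polynomial.map_pow, Polynomial.map_X, Polynomial.map_prod, RingHom.coe_coe, aeval_X,
      Polynomial.eval_sub, Polynomial.eval_mul, Polynomial.eval_finsetSum, Polynomial.eval_C,
      Polynomial.eval_pow, Polynomial.eval_X, Polynomial.eval_prod, Polynomial.eval_zero,
      sub_eq_zero] at h6
  rw [← h6]
  congr 1
  exact Finset.sum_congr rfl fun j _ => mul_comm _ _

end

end Pool.Agent.Helper14D
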