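import Mathlib
import Pool.Agent.Helper14D.Hom

/-!
# The main lift
-/

set_option autoImplicit false
set_option linter.unusedSectionVars false

open MvPolynomial

namespace Pool.Agent.Helper14D

open Pool.Agent.Helper14C Pool.Agent.TH922.KC

lemma adj_bound {L E ι : Type} [Field L] [Field E] [Algebra L E] [Finite ι] (S : Finset ι)
    (w : ι → E) (n : ι → ℕ) (h : ∀ i, ∃ P : Polynomial L, P.Monic ∧ P.natDegree ≤ n i ∧
      Polynomial.aeval (w i) P = 0) :
    FiniteDimensional L (IntermediateField.adjoin L (w '' (S : Set ι))) ∧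
      Module.finrank L (IntermediateField.adjoin L (w '' (S : Set ι))) ≤ ∏ i ∈ S, n i := by
  classical
  induction S using Finset.induction_on with
  | empty =>
    rw [Finset.coe_empty, Set.image_empty, IntermediateField.adjoin_empty, Finset.prod_empty]
    refine ⟨inferInstance, ?_⟩
    rw [IntermediateField.finrank_bot]
  | insert i S hi ih =>
    obtain ⟨ih1, ih2⟩ := ih
    obtain ⟨P, hP, hdeg, hP0⟩ := h i
    have hint : IsIntegral L (w i) := ⟨P, hP, hP0⟩
    have h1 : IntermediateField.adjoin L (w '' ((insert i S : Finset ι) : Set ι))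
        = IntermediateField.adjoin L {w i} ⊔ IntermediateField.adjoin L (w '' (S : Set ι)) := by
      rw [Finset.coe_insert, Set.image_insert_eq, Set.insert_eq, IntermediateField.adjoin_union]
    have hfd : FiniteDimensional L (IntermediateField.adjoin L {w i}) :=
      IntermediateField.adjoin.finiteDimensional hint
    rw [h1, Finset.prod_insert hi]
    refine ⟨IntermediateField.finiteDimensional_sup _ _, ?_⟩
    refine (IntermediateField.finrank_sup_le _ _).trans (Nat.mul_le_mul ?_ ih2)
    rw [IntermediateField.adjoin.finrank hint]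
    refine le_trans ?_ hdeg
    exact Polynomial.natDegree_le_natDegree (minpoly.min L (w i) hP hP0)

lemma aeval_CX {κ Ω ι : Type} [Field κ] [Field Ω] [Algebra κ Ω] (a : ι → Ω) (e d : ℕ)
    {f : MvPolynomial ι κ} (hf : f.IsHomogeneous d) :
    aeval (fun j => Polynomial.C (a j) * (Polynomial.X : Polynomial Ω) ^ e) f
      = Polynomial.C (aeval a f) * (Polynomial.X : Polynomial Ω) ^ (e * d) := by
  have h1 := aeval_scale (K := κ) (fun j => Polynomial.C (a j)) ((Polynomial.X : Polynomial Ω) ^ e) hf
  have h2 : (fun j => Polynomial.C (a j) * (Polynomial.X : Polynomial Ω) ^ e)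
      = fun j => (Polynomial.X : Polynomial Ω) ^ e * Polynomial.C (a j) := funext fun j => mul_comm _ _
  rw [h2, h1, ← pow_mul, mul_comm]
  congr 1
  exact aeval_algebraMap_apply (R := κ) (A := Ω) (Polynomial Ω) a f

theorem lift (hext : S_ext) (hhom : S_homint) {κ Ω : Type} [Field κ] [CharZero κ] [Field Ω]
    [Algebra κ Ω] {N : ℕ} {τ : Type} [Fintype τ] [DecidableEq τ] {m : τ → ℕ}
    {u v : τ → MvPolynomial (Fin (N + 1)) ℚ} {M1 : ℕ} {b : τ → ℕ} {kk : ℕ} (hkk : 0 < kk)
    (hu : ∀ t, (u t).IsHomogeneous (m t)) (hv : ∀ t, (v t).IsHomogeneous (m t))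
    (hD : ∑ t, m t * b t = kk * (1 + M1 * ∑ t, m t))
    (h1 : ∀ j, IsIntegral (Algebra.adjoin ℚ (Set.range (WW u v M1))) ((UU u v b).coeff j))
    (h2 : ∀ β, IsIntegral (Algebra.adjoin ℚ (Set.range fun j : Fin (∑ t, b t + 1) =>
      (UU u v b).coeff (j : ℕ))) (WW u v M1 β))
    (h3 : ∀ γ : Gm N τ M1, IsIntegral (Algebra.adjoin ℚ (Set.range (WW u v M1)))
      (∏ t, wp u v M1 t (γ.1 t) ^ b t))
    (nW : Ix N τ M1 → ℕ) (hnW : ∀ β, ∃ A : ℕ → MvPolynomial (Fin (∑ t, b t + 1)) ℚ,
      WW u v M1 β ^ nW β + ∑ i ∈ Finset.range (nW β), aeval (fun j : Fin (∑ t, b t + 1) =>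
        (UU u v b).coeff (j : ℕ)) (A i) * WW u v M1 β ^ i = 0)
    (φ : ℚ →+* κ) (p : GI N τ M1 b → Ω)
    (hp : Kill (fun i => MvPolynomial.map φ (g0 u v M1 b i)) p)
    (s : MvPolynomial (Ix N τ M1) κ) (q : ℕ) (hs : s.IsHomogeneous q)
    (hps : aeval (fun β => p (Sum.inl β)) s = 0)
    (J : Ideal (MvPolynomial (Fin (∑ t, b t + 1)) κ))
    (hJ : ∀ (f : MvPolynomial (Fin (∑ t, b t + 1)) κ) (d : ℕ), f.IsHomogeneous d →
      (f ∈ J ↔ aeval (fun j => p (Sum.inr (Sum.inl j))) f = 0))
    (Q M : ℕ)
    (hI : ∀ t0, Idx (FractionRing (Polynomial κ)) (SV u v M1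
      (algebraMap (Polynomial κ) (FractionRing (Polynomial κ)) Polynomial.X) t0
      (MvPolynomial.map ((algebraMap (Polynomial κ) (FractionRing (Polynomial κ))).comp
        Polynomial.C) s)) Q M) :
    Idx (FractionRing (Polynomial κ)) (insert
      (UT (FractionRing (Polynomial κ)) (algebraMap (Polynomial κ) _ Polynomial.X)
        (∑ t, b t + 1))
      ((MvPolynomial.map (algebraMap κ (FractionRing (Polynomial κ)))) '' (J : Set _))) Q
      (M * (∏ β, nW β).factorial) := by
  classical
  intro L _ _ _ z hz hzS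
  set K := FractionRing (Polynomial κ) with hK
  set T : K := algebraMap (Polynomial κ) K Polynomial.X with hT
  let E := AlgebraicClosure L
  let θ : κ →+* E := (algebraMap L E).comp ((algebraMap K L).comp (algebraMap κ K))
  let _ : Algebra κ E := θ.toAlgebra
  have hκE : ∀ {ι : Type} (a : ι → E) (f : MvPolynomial ι κ), aeval a f = eval₂ θ a f :=
    fun a f => rfl
  -- weights
  have hwex : ∀ γ : Gm N τ M1, ∃ e, (∏ t, wp u v M1 t (γ.1 t) ^ b t).IsHomogeneous e := by
    intro γ
    choose e he using fun t => wp_hom (M1 := M1) hu hv t (γ.1 t)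
    exact ⟨_, IsHomogeneous.prod _ _ _ fun t _ => (he t).pow (b t)⟩
  choose wγ hwγ using hwex
  set D0 := 1 + M1 * ∑ t, m t with hD0
  have hD0pos : 0 < D0 := by omega
  let w : GI N τ M1 b → ℕ := Sum.elim (fun _ => D0) (Sum.elim (fun _ => kk * D0) wγ)
  have hgw : ∀ i, (MvPolynomial.map φ (g0 u v M1 b i)).IsHomogeneous (w i) := by
    intro i
    apply IsHomogeneous.map
    rcases i with β | j | γ
    · exact WW_hom hu hv β
    · have := UU_hom (b := b) hu hv (j : ℕ)
      rw [hD] at this
      exact this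
    · exact hwγ γ
  let p1 : GI N τ M1 b → Polynomial Ω := fun i => Polynomial.C (p i) * Polynomial.X ^ w i
  have hp1 : Kill (fun i => MvPolynomial.map φ (g0 u v M1 b i)) p1 := hp.scale w hgw
  -- integrality over the `U`
  have hg0U : ∀ i, IsIntegral (Algebra.adjoin ℚ (Set.range fun j : Fin (∑ t, b t + 1) =>
      g0 u v M1 b (Sum.inr (Sum.inl j)))) (g0 u v M1 b i) := by
    have hW : ∀ β, IsIntegral (Algebra.adjoin ℚ (Set.range fun j : Fin (∑ t, b t + 1) =>
      g0 u v M1 b (Sum.inr (Sum.inl j)))) (WW u v M1 β) := h2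
    intro i
    rcases i with β | j | γ
    · exact h2 β
    · exact int_trans (by rintro _ ⟨β, rfl⟩; exact hW β) (h1 j)
    · exact int_trans (by rintro _ ⟨β, rfl⟩; exact hW β) (h3 γ)
  have hgU : ∀ i, IsIntegral (Algebra.adjoin κ (Set.range fun j : Fin (∑ t, b t + 1) =>
      MvPolynomial.map φ (g0 u v M1 b (Sum.inr (Sum.inl j))))) (MvPolynomial.map φ (g0 u v M1 b i)) :=
    fun i => int_bc φ (MvPolynomial.map φ) (fun c => by
      rw [MvPolynomial.algebraMap_eq, MvPolynomial.algebraMap_eq, map_C]) _ _ (hg0U i)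
  have hp1i : ∀ i, IsIntegral (Algebra.adjoin κ (Set.range fun j : Fin (∑ t, b t + 1) =>
      p1 (Sum.inr (Sum.inl j)))) (p1 i) := fun i =>
    hp1.int (fun j => Sum.inr (Sum.inl j)) i (hgU i)
  let zE : Fin (∑ t, b t + 1) → E := fun j => algebraMap L E (z j)
  have hzJ : ∀ f ∈ J, aeval zE f = 0 := by
    intro f hf
    have h4 := hzS _ (Set.mem_insert_of_mem _ ⟨f, hf, rfl⟩)
    have h5 : aeval zE f = algebraMap L E (aeval z (MvPolynomial.map (algebraMap κ K) f)) := by
      rw [hκE, aeval_def, eval₂_map]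
      exact (hom_eval₂ f _ (algebraMap L E) z).symm
    rw [h5, h4, map_zero]
  obtain ⟨r, hr⟩ := ext_pt hext (E := E) (fun j : Fin (∑ t, b t + 1) => p1 (Sum.inr (Sum.inl j)))
    p1 hp1i zE (by
      intro F hF
      rw [← F.sum_homogeneousComponent, map_sum] at hF ⊢
      have h4 : ∀ d, aeval (fun j : Fin (∑ t, b t + 1) => p1 (Sum.inr (Sum.inl j)))
          (homogeneousComponent d F) = Polynomial.C (aeval (fun j => p (Sum.inr (Sum.inl j)))
            (homogeneousComponent d F)) * Polynomial.X ^ ((kk * D0) * d) := fun d =>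
        aeval_CX _ _ _ (homogeneousComponent_isHomogeneous d F)
      simp only [h4] at hF
      refine Finset.sum_eq_zero fun d hd => hzJ _ ?_
      rw [hJ _ d (homogeneousComponent_isHomogeneous d F)]
      have h5 := congrArg (fun f => Polynomial.coeff f ((kk * D0) * d)) hF
      simp only [Polynomial.finsetSum_coeff, Polynomial.coeff_zero, Polynomial.coeff_C_mul_X_pow] at h5
      rw [Finset.sum_eq_single d] at h5
      · rw [if_pos rfl] at h5
        exact h5
      · intro d' _ hd'
        rw [if_neg]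
        intro h6
        exact hd' (Nat.eq_of_mul_eq_mul_left (Nat.mul_pos hkk hD0pos) h6).symm
      · intro h6; exact absurd hd h6)
  have hr1 : Kill (fun i => MvPolynomial.map φ (g0 u v M1 b i)) r := by
    intro F hF
    have h4 := hr (rename Sum.inr F) (by
      rw [aeval_rename]
      exact hp1 F hF)
    rw [aeval_rename] at h4
    exact h4
  have hrU : ∀ j, r (Sum.inr (Sum.inl j)) = zE j := by
    intro j
    have h4 := hr (X (Sum.inr (Sum.inr (Sum.inl j))) - X (Sum.inl j)) (by
      rw [map_sub, aeval_X, aeval_X, sub_eq_zero]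
      rfl)
    rw [map_sub, aeval_X, aeval_X, sub_eq_zero] at h4
    exact h4
  have hrs : aeval (fun β => r (Sum.inl β)) s = 0 := by
    have h4 := hr (rename (fun β => Sum.inr (Sum.inl β)) s) (by
      rw [aeval_rename]
      have h5 : aeval (fun β : Ix N τ M1 => p1 (Sum.inl β)) s = 0 := by
        have h6 : aeval (fun β : Ix N τ M1 => p1 (Sum.inl β)) s = _ :=
          aeval_CX (fun β => p (Sum.inl β)) D0 q hs
        rw [h6, hps, Polynomial.C_0, zero_mul]
      exact h5)
    rw [aeval_rename] at h4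
    exact h4
  let W : Ix N τ M1 → E := fun β => r (Sum.inl β)
  have hW0 : W ≠ 0 := by
    intro h0
    apply hz
    funext j
    obtain ⟨n, A, hn, hA, hAe⟩ := hhom κ (Ix N τ M1) (Fin (N + 1))
      (fun β => MvPolynomial.map φ (WW u v M1 β)) D0 kk
      (MvPolynomial.map φ ((UU u v b).coeff (j : ℕ))) hD0pos
      (fun β => (WW_hom hu hv β).map φ) (by
        have := (UU_hom (b := b) hu hv (j : ℕ)).map φ
        rw [hD] at this
        exact this) (int_bc φ (MvPolynomial.map φ) (fun c => by
      rw [MvPolynomial.algebraMap_eq, MvPolynomial.algebraMap_eq, map_C]) _ _ (h1 j))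
    have h4 := hr1.eq (fun β => Sum.inl β) (Sum.inr (Sum.inl j)) n (fun i => A (i + 1))
      (fun i => n - 1 - i) hAe
    have h5 : ∀ i, aeval (fun β => r (Sum.inl β)) (A (i + 1)) = (0 : E) := by
      intro i
      have h6 := aeval_scale (K := κ) (fun _ : Ix N τ M1 => (0 : E)) 0 (hA (i + 1))
      have h7 : (fun β => r (Sum.inl β)) = fun _ : Ix N τ M1 => (0 : E) * 0 := by
        rw [mul_zero]
        exact h0
      rw [h7, h6, zero_pow (Nat.mul_pos hkk (Nat.succ_pos i)).ne', zero_mul]
    have h8 : ∑ i ∈ Finset.range n, aeval (fun β => r (Sum.inl β)) (A (i + 1)) *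
        r (Sum.inr (Sum.inl j)) ^ (n - 1 - i) = 0 :=
      Finset.sum_eq_zero (fun i _ => by rw [h5, zero_mul])
    rw [h8, add_zero, hrU] at h4
    have h6 : zE j = 0 := pow_eq_zero_iff hn.ne' |>.mp h4
    exact (map_eq_zero (algebraMap L E)).mp h6
  -- the relation for `T`
  let TE : E := algebraMap L E (algebraMap K L T)
  have hUT : ∑ j : Fin (∑ t, b t + 1), TE ^ (j : ℕ) * r (Sum.inr (Sum.inl j)) = 0 := by
    have h4 := hzS _ (Set.mem_insert _ _)
    unfold UT at h4
    rw [map_sum] at h4
    have h5 := congrArg (algebraMap L E) h4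
    rw [map_sum, map_zero] at h5
    rw [← h5]
    refine Finset.sum_congr rfl fun j _ => ?_
    rw [hrU, map_mul, aeval_C, aeval_X, map_mul, map_pow, map_pow]
  have ht0 : ∃ t0, ∀ (β : Ix N τ M1) (h : (β.2 t0 : ℕ) < M1), W (up t0 β h) = TE * W β := by
    by_contra hcon
    push Not at hcon
    choose β hβ hne using hcon
    have h4 := U_pt φ r hr1 ⟨β, hβ⟩ TE
    rw [hUT, zero_mul] at h4
    obtain ⟨t, -, ht⟩ := Finset.prod_eq_zero_iff.mp h4.symm
    have h5 := eq_zero_of_pow_eq_zero ht
    exact hne t (sub_eq_zero.mp h5)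
  obtain ⟨t0, ht0⟩ := ht0
  -- the field generated by the `W`
  have hbd := adj_bound (L := L) (E := E) Finset.univ W nW (by
    intro β
    obtain ⟨A, hA⟩ := hnW β
    have h4 := congrArg (MvPolynomial.map φ) hA
    rw [map_zero, map_add, map_pow, map_sum] at h4
    have h40 : ∀ i, aeval (fun j : Fin (∑ t, b t + 1) =>
        MvPolynomial.map φ ((UU u v b).coeff (j : ℕ))) (MvPolynomial.map φ (A i))
        = MvPolynomial.map φ (aeval (fun j : Fin (∑ t, b t + 1) =>
        (UU u v b).coeff (j : ℕ)) (A i)) := fun i =>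
      int_map φ (MvPolynomial.map φ) (fun c => by
        rw [MvPolynomial.algebraMap_eq, MvPolynomial.algebraMap_eq, map_C])
        (fun j : Fin (∑ t, b t + 1) => (UU u v b).coeff (j : ℕ)) (A i)
    have h5 : MvPolynomial.map φ (WW u v M1 β) ^ nW β + ∑ i ∈ Finset.range (nW β),
        aeval (fun j : Fin (∑ t, b t + 1) => MvPolynomial.map φ ((UU u v b).coeff (j : ℕ)))
          (MvPolynomial.map φ (A i)) * MvPolynomial.map φ (WW u v M1 β) ^ i = 0 := by
      rw [← h4]
      congr 1
      refine Finset.sum_congr rfl fun i _ => ?_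
      rw [map_mul, map_pow, h40]
    have h6 : r (Sum.inl β) ^ nW β + ∑ i ∈ Finset.range (nW β),
        aeval (fun j : Fin (∑ t, b t + 1) => r (Sum.inr (Sum.inl j)))
          (MvPolynomial.map φ (A i)) * r (Sum.inl β) ^ i = 0 :=
      hr1.eq (fun j => Sum.inr (Sum.inl j)) (Sum.inl β) (nW β)
        (fun i => MvPolynomial.map φ (A i)) (fun i => i) h5
    let a : ℕ → L := fun i => eval₂ ((algebraMap K L).comp ((algebraMap κ K).comp φ)) z (A i)
    have h7 : ∀ i, aeval (fun j => r (Sum.inr (Sum.inl j))) (MvPolynomial.map φ (A i))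
        = algebraMap L E (a i) := by
      intro i
      rw [hκE, eval₂_map]
      have h8 : (fun j => r (Sum.inr (Sum.inl j))) = fun j => algebraMap L E (z j) := funext hrU
      have h9 : θ.comp φ = (algebraMap L E).comp ((algebraMap K L).comp ((algebraMap κ K).comp φ)) :=
        Subsingleton.elim _ _
      rw [h8, h9]
      exact (hom_eval₂ (A i) ((algebraMap K L).comp ((algebraMap κ K).comp φ))
        (algebraMap L E) z).symm
    set R : Polynomial L := ∑ i ∈ Finset.range (nW β), Polynomial.C (a i) * Polynomial.X ^ i with hR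
    have hdeg : R.degree < nW β := by
      rw [Polynomial.degree_lt_iff_coeff_zero]
      intro k hk
      rw [hR, Polynomial.finsetSum_coeff]
      refine Finset.sum_eq_zero fun i hi => ?_
      rw [Polynomial.coeff_C_mul_X_pow, if_neg]
      have := Finset.mem_range.mp hi
      omega
    refine ⟨Polynomial.X ^ nW β + R, Polynomial.monic_X_pow_add hdeg, ?_, ?_⟩
    · refine Polynomial.natDegree_le_of_degree_le ((Polynomial.degree_add_le _ _).trans ?_)
      exact max_le (Polynomial.degree_X_pow_le _) hdeg.le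
    · rw [map_add, map_pow, Polynomial.aeval_X, hR, map_sum, ← h6]
      congr 1
      refine Finset.sum_congr rfl fun i _ => ?_
      rw [map_mul, map_pow, Polynomial.aeval_X, Polynomial.aeval_C, h7])
  rw [Finset.coe_univ, Set.image_univ] at hbd
  obtain ⟨hfd, hle⟩ := hbd
  let L' := IntermediateField.adjoin L (Set.range W)
  have hfdK : FiniteDimensional K L' := FiniteDimensional.trans K L L'
  let z' : Ix N τ M1 → L' := fun β => ⟨W β, IntermediateField.subset_adjoin _ _ ⟨β, rfl⟩⟩
  have htow : IsScalarTower K L' E := IsScalarTower.of_algebraMap_eq fun x => rfl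
  have hz' : ∀ f : MvPolynomial (Ix N τ M1) K, algebraMap L' E (aeval z' f)
      = eval₂ (algebraMap K E) W f := by
    intro f
    have h4 := aeval_algebraMap_apply (R := K) (A := L') E z' f
    exact h4.symm
  have hinj : Function.Injective (algebraMap L' E) := (algebraMap L' E).injective
  have h4 := hI t0 L' z' (by
    intro h0
    apply hW0
    funext β
    exact congrArg Subtype.val (congrFun h0 β)) (by
    rintro f (⟨d, F, ψ, hF, hF0, rfl⟩ | ⟨β, h, rfl⟩ | rfl)
    · apply hinj
      rw [hz', map_zero, eval₂_map]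
      have h5 := hr1.sub (fun β => Sum.inl β) (MvPolynomial.map φ F) (by
        have h6 := int_map φ (MvPolynomial.map φ) (fun c => by
          rw [MvPolynomial.algebraMap_eq, MvPolynomial.algebraMap_eq, map_C]) (WW u v M1) F
        rw [hF0, map_zero] at h6
        exact h6)
      rw [hκE, eval₂_map] at h5
      have h6 : (algebraMap K E).comp ψ = θ.comp φ := Subsingleton.elim _ _
      rw [h6]
      exact h5
    · apply Subtype.ext
      rw [map_sub, map_mul, aeval_X, aeval_X, aeval_C]
      have h5 := ht0 β h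
      change W (up t0 β h) - ((algebraMap K L' T : L') : E) * W β = 0
      rw [h5, sub_eq_zero]
      congr 1
    · apply hinj
      rw [hz', map_zero, eval₂_map]
      rw [hκE] at hrs
      exact hrs)
  have h5 : Module.finrank K L' = Module.finrank K L * Module.finrank L L' :=
    (Module.finrank_mul_finrank K L L').symm
  rw [h5] at h4
  refine h4.trans ?_
  have h6 : Module.finrank L L' ∣ (∏ β, nW β).factorial :=
    Nat.dvd_factorial Module.finrank_pos hle
  calc M * (Module.finrank K L * Module.finrank L L')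
      ∣ M * (Module.finrank K L * (∏ β, nW β).factorial) :=
        Nat.mul_dvd_mul_left _ (Nat.mul_dvd_mul_left _ h6)
    _ = M * (∏ β, nW β).factorial * Module.finrank K L := by ring

end Pool.Agent.Helper14D
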