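import Mathlib
import Pool.Agent.Helper14D.Lift

/-!
# Components of the norm hypersurface of a generic section
-/

set_option autoImplicit false
set_option linter.unusedSectionVars false

open MvPolynomial

namespace Pool.Agent.Helper14D

open Pool.Agent.Helper14C Pool.Agent.TH922.KC

lemma aeval_zero_hom {κ R ι : Type} [Field κ] [CommRing R] [Algebra κ R] {f : MvPolynomial ι κ}
    {d : ℕ} (hf : f.IsHomogeneous d) (hd : 0 < d) {a : ι → R} (ha : ∀ i, a i = 0) :
    aeval a f = 0 := by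
  have h6 := aeval_scale (K := κ) (fun _ : ι => (0 : R)) 0 hf
  have h7 : a = fun _ : ι => (0 : R) * 0 := by
    funext i
    rw [mul_zero, ha i]
  rw [h7, h6, zero_pow hd.ne', zero_mul]

theorem caseG (hext : S_ext) (hhom : S_homint) (hbc : S_bc) (hcmp : S_cmp)
    {K κ : Type} [Field K] [CharZero K] [Field κ] [CharZero κ] (φ : K →+* κ)
    {N : ℕ} {τ : Type} [Fintype τ] [DecidableEq τ] {m : τ → ℕ}
    {u v : τ → MvPolynomial (Fin (N + 1)) ℚ} {M1 : ℕ} {b : τ → ℕ} {kk : ℕ} (hkk : 0 < kk)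
    (hu : ∀ t, (u t).IsHomogeneous (m t)) (hv : ∀ t, (v t).IsHomogeneous (m t))
    (hD : ∑ t, m t * b t = kk * (1 + M1 * ∑ t, m t))
    (h1 : ∀ j, IsIntegral (Algebra.adjoin ℚ (Set.range (WW u v M1))) ((UU u v b).coeff j))
    (h2 : ∀ β, IsIntegral (Algebra.adjoin ℚ (Set.range fun j : Fin (∑ t, b t + 1) =>
      (UU u v b).coeff (j : ℕ))) (WW u v M1 β))
    (h3 : ∀ γ : Gm N τ M1, IsIntegral (Algebra.adjoin ℚ (Set.range (WW u v M1)))
      (∏ t, wp u v M1 t (γ.1 t) ^ b t))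
    (nW : Ix N τ M1 → ℕ) (hnW : ∀ β, ∃ A : ℕ → MvPolynomial (Fin (∑ t, b t + 1)) ℚ,
      WW u v M1 β ^ nW β + ∑ i ∈ Finset.range (nW β), aeval (fun j : Fin (∑ t, b t + 1) =>
        (UU u v b).coeff (j : ℕ)) (A i) * WW u v M1 β ^ i = 0)
    (y : Fin (N + 1) → MvPolynomial (Fin (N + 1)) K)
    (hgy : ∀ i, IsIntegral (Algebra.adjoin K (Set.range y))
      (MvPolynomial.map (algebraMap ℚ K) (g0 u v M1 b i)))
    (nU : Fin (∑ t, b t + 1) → ℕ) (hnU : ∀ j, 0 < nU j)
    (hU : ∀ j : Fin (∑ t, b t + 1), ∃ A : ℕ → MvPolynomial (Fin (N + 1)) K, (∀ i, (A i).IsHomogeneous (kk * i)) ∧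
      (MvPolynomial.map (algebraMap ℚ K) ((UU u v b).coeff (j : ℕ))) ^ nU j +
        ∑ i ∈ Finset.range (nU j), aeval y (A (i + 1)) *
          (MvPolynomial.map (algebraMap ℚ K) ((UU u v b).coeff (j : ℕ))) ^ (nU j - 1 - i) = 0)
    (nY : It (Fin (N + 1)) kk → ℕ) (hnY : ∀ α, 0 < nY α)
    (hY : ∀ α, ∃ A : ℕ → MvPolynomial (Fin (∑ t, b t + 1)) K, (∀ i, (A i).IsHomogeneous i) ∧
      (aeval y (monomial α.1 (1 : K))) ^ nY α + ∑ i ∈ Finset.range (nY α),
        aeval (fun j : Fin (∑ t, b t + 1) => MvPolynomial.map (algebraMap ℚ K)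
          ((UU u v b).coeff (j : ℕ))) (A (i + 1)) *
          (aeval y (monomial α.1 (1 : K))) ^ (nY α - 1 - i) = 0)
    (s0 : MvPolynomial (Ix N τ M1) K) (q : ℕ) (hs0 : s0.IsHomogeneous q)
    (G : MvPolynomial (Fin (N + 1)) K)
    (hG : ∀ F : MvPolynomial (Option (Fin (N + 1))) K, aeval (fun o => Option.elim o
      (aeval (fun β => MvPolynomial.map (algebraMap ℚ K) (WW u v M1 β)) s0) y) F = 0 →
        G ∣ aeval (fun o => Option.elim o (0 : MvPolynomial (Fin (N + 1)) K) X) F)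
    (P : Ideal (MvPolynomial (Fin (N + 1)) κ)) (hPp : P.IsPrime)
    (hGP : MvPolynomial.map φ G ∈ P) (hgr : ∃ C : ℕ, ∀ t, hf P t ≤ C * (t + 1)) (Q M : ℕ)
    (hI : ∀ t0, Idx (FractionRing (Polynomial κ)) (SV u v M1
      (algebraMap (Polynomial κ) (FractionRing (Polynomial κ)) Polynomial.X) t0
      (MvPolynomial.map ((algebraMap (Polynomial κ) (FractionRing (Polynomial κ))).comp
        Polynomial.C) (MvPolynomial.map φ s0))) Q M) :
    ∃ T0 : ℕ, ∀ t ≥ T0, (Q : ℤ) ∣ ((M * (∏ β, nW β).factorial *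
      ((((∑ j, nU j + ∑ α, nY α) + (∑ t, b t) + 1).choose (∑ j, nU j + ∑ α, nY α)).factorial
        * kk) : ℕ) : ℤ) * ((hf P (t + 1) : ℤ) - hf P t) := by
  classical
  by_cases hall : ∀ x : Fin (N + 1), (MvPolynomial.X x : MvPolynomial (Fin (N + 1)) κ) ∈ P
  · refine ⟨1, fun t ht => ?_⟩
    obtain ⟨s, rfl⟩ := Nat.exists_eq_add_of_le' ht
    rw [hf_all hall, hf_all hall]
    simp
  push Not at hall
  obtain ⟨x0, hx0⟩ := hall
  let φQ : ℚ →+* κ := φ.comp (algebraMap ℚ K)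
  have hφC : ∀ c : K, MvPolynomial.map (σ := Fin (N + 1)) φ (algebraMap K _ c)
      = algebraMap κ _ (φ c) := fun c => by
    rw [MvPolynomial.algebraMap_eq, MvPolynomial.algebraMap_eq, map_C]
  have hmm : ∀ x : MvPolynomial (Fin (N + 1)) ℚ, MvPolynomial.map φ
      (MvPolynomial.map (algebraMap ℚ K) x) = MvPolynomial.map φQ x := fun x =>
    MvPolynomial.map_map _ _ x
  obtain ⟨Ω, _, _, yb, p, hKill, hyb, hsp⟩ := glift hext hbc φ y
    (aeval (fun β => MvPolynomial.map (algebraMap ℚ K) (WW u v M1 β)) s0) G hG P hPp hGP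
    (fun i => MvPolynomial.map φQ (g0 u v M1 b i)) (fun i => by
      have h4 := int_bc φ (MvPolynomial.map (σ := Fin (N + 1)) φ) hφC _ _ (hgy i)
      rw [hmm] at h4
      exact h4)
  have hKg : Kill (fun i => MvPolynomial.map φQ (g0 u v M1 b i)) p := by
    intro F hF
    have h4 := hKill (rename Sum.inr F) (by
      rw [aeval_rename]
      exact hF)
    rw [aeval_rename] at h4
    exact h4
  have hps : aeval (fun β => p (Sum.inl β)) (MvPolynomial.map φ s0) = 0 := by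
    have h4 := hsp (rename Sum.inl (MvPolynomial.map φ s0)) (by
      rw [aeval_rename]
      have h5 := int_map φ (MvPolynomial.map (σ := Fin (N + 1)) φ) hφC
        (fun β => MvPolynomial.map (algebraMap ℚ K) (WW u v M1 β)) s0
      simp only [hmm] at h5
      exact h5)
    rw [aeval_rename] at h4
    exact h4
  let pU : Fin (∑ t, b t + 1) → Ω := fun j => p (Sum.inr (Sum.inl j))
  obtain ⟨J, hJ, hJp, hJmem, hJhf⟩ := hom_ideal (K := κ) pU
  have hIdx := lift hext hhom hkk hu hv hD h1 h2 h3 nW hnW φQ p hKg (MvPolynomial.map φ s0) q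
    (hs0.map φ) hps J hJmem Q M hI
  -- the equations at the point
  have hUe : ∀ j, ∃ A : ℕ → MvPolynomial (Fin (N + 1)) κ, (∀ i, (A i).IsHomogeneous (kk * i)) ∧
      pU j ^ nU j + ∑ i ∈ Finset.range (nU j), aeval yb (A (i + 1)) * pU j ^ (nU j - 1 - i) = 0 := by
    intro j
    obtain ⟨A, hA, hAe⟩ := hU j
    refine ⟨fun i => MvPolynomial.map φ (A i), fun i => (hA i).map φ, ?_⟩
    have h4 := congrArg (MvPolynomial.map φ) hAe
    rw [map_zero, map_add, map_pow, map_sum, hmm] at h4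
    have h5 : ∀ i, MvPolynomial.map φ (aeval y (A (i + 1))) =
        aeval (fun j => MvPolynomial.map φ (y j)) (MvPolynomial.map φ (A (i + 1))) := fun i =>
      (int_map φ (MvPolynomial.map (σ := Fin (N + 1)) φ) hφC y (A (i + 1))).symm
    have h6 : MvPolynomial.map φQ ((UU u v b).coeff (j : ℕ)) ^ nU j + ∑ i ∈ Finset.range (nU j),
        aeval (fun j => MvPolynomial.map φ (y j)) (MvPolynomial.map φ (A (i + 1))) *
          MvPolynomial.map φQ ((UU u v b).coeff (j : ℕ)) ^ (nU j - 1 - i) = 0 := by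
      rw [← h4]
      congr 1
      refine Finset.sum_congr rfl fun i _ => ?_
      rw [map_mul, map_pow, hmm, h5]
    exact hKill.eq (fun j => Sum.inl j) (Sum.inr (Sum.inr (Sum.inl j))) (nU j)
      (fun i => MvPolynomial.map φ (A (i + 1))) (fun i => nU j - 1 - i) h6
  have hYe : ∀ α : It (Fin (N + 1)) kk, ∃ A : ℕ → MvPolynomial (Fin (∑ t, b t + 1)) κ,
      (∀ i, (A i).IsHomogeneous i) ∧
      (aeval yb (monomial α.1 (1 : κ))) ^ nY α + ∑ i ∈ Finset.range (nY α),
        aeval pU (A (i + 1)) * (aeval yb (monomial α.1 (1 : κ))) ^ (nY α - 1 - i) = 0 := by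
    intro α
    obtain ⟨A, hA, hAe⟩ := hY α
    refine ⟨fun i => MvPolynomial.map φ (A i), fun i => (hA i).map φ, ?_⟩
    have h4 := congrArg (MvPolynomial.map φ) hAe
    rw [map_zero, map_add, map_pow, map_sum] at h4
    have h50 : MvPolynomial.map φ (aeval y (monomial α.1 (1 : K)))
        = aeval (fun j => MvPolynomial.map φ (y j)) (monomial α.1 (1 : κ)) := by
      have h5 := int_map φ (MvPolynomial.map (σ := Fin (N + 1)) φ) hφC y (monomial α.1 (1 : K))
      rw [map_monomial, map_one] at h5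
      exact h5.symm
    have h51 : ∀ i, MvPolynomial.map φ (aeval (fun j : Fin (∑ t, b t + 1) =>
        MvPolynomial.map (algebraMap ℚ K) ((UU u v b).coeff (j : ℕ))) (A (i + 1))) =
        aeval (fun j : Fin (∑ t, b t + 1) => MvPolynomial.map φQ ((UU u v b).coeff (j : ℕ)))
          (MvPolynomial.map φ (A (i + 1))) := fun i => by
      have h5 := int_map φ (MvPolynomial.map (σ := Fin (N + 1)) φ) hφC (fun j : Fin (∑ t, b t + 1) =>
        MvPolynomial.map (algebraMap ℚ K) ((UU u v b).coeff (j : ℕ))) (A (i + 1))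
      simp only [hmm] at h5
      exact h5.symm
    let R : MvPolynomial (Fin (N + 1) ⊕ GI N τ M1 b) κ :=
      (rename Sum.inl (monomial α.1 (1 : κ))) ^ nY α + ∑ i ∈ Finset.range (nY α),
        rename (fun j => Sum.inr (Sum.inr (Sum.inl j))) (MvPolynomial.map φ (A (i + 1))) *
          (rename Sum.inl (monomial α.1 (1 : κ))) ^ (nY α - 1 - i)
    have h6 : aeval (Sum.elim (fun j => MvPolynomial.map φ (y j))
        (fun i => MvPolynomial.map φQ (g0 u v M1 b i))) R = 0 := by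
      simp only [R, map_add, map_pow, map_sum, map_mul, aeval_rename]
      rw [← h4, h50]
      refine congrArg₂ _ rfl ?_
      refine Finset.sum_congr rfl fun i _ => ?_
      rw [map_mul, map_pow, h50, h51]
      rfl
    have h7 := hKill R h6
    simp only [R, map_add, map_pow, map_sum, map_mul, aeval_rename] at h7
    exact h7
  have hyb0 : yb ≠ 0 := by
    intro h0
    apply hx0
    rw [← hyb, aeval_X, h0]
    rfl
  have hpU0 : pU ≠ 0 := by
    intro h0
    let α : It (Fin (N + 1)) kk := ⟨Finsupp.single x0 kk, by simp [Finsupp.degree_single]⟩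
    obtain ⟨A, hA, hAe⟩ := hYe α
    have h4 : ∑ i ∈ Finset.range (nY α), aeval pU (A (i + 1)) *
        (aeval yb (monomial α.1 (1 : κ))) ^ (nY α - 1 - i) = 0 :=
      Finset.sum_eq_zero fun i _ => by
        rw [aeval_zero_hom (hA (i + 1)) (Nat.succ_pos i) (fun j => congrFun h0 j), zero_mul]
    rw [h4, add_zero] at hAe
    have h5 := eq_zero_of_pow_eq_zero hAe
    have h6 : aeval yb (monomial α.1 (1 : κ)) = yb x0 ^ kk := by
      rw [aeval_monomial]
      simp [α]
    rw [h6] at h5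
    apply hx0
    rw [← hyb, aeval_X]
    exact eq_zero_of_pow_eq_zero h5
  have hVy : ∀ t, hf P t = Module.finrank κ (V κ yb t) := by
    intro t
    have h4 : RingHom.ker (aeval yb : MvPolynomial (Fin (N + 1)) κ →ₐ[κ] Ω) = P := by
      ext f
      rw [RingHom.mem_ker, hyb]
    conv_lhs => rw [← h4, hf_ker]
    rfl
  obtain ⟨⟨C1, hC1⟩, a, b', ρ, σ, ⟨Ka, ha⟩, ⟨Kb, hb⟩, hρ, hσ, hρle, hρσ⟩ := hcmp κ Ω N (∑ t, b t) kk
    yb pU hkk hyb0 hpU0 nU hnU hUe nY hnY hYe _ rfl (by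
      obtain ⟨C, hC⟩ := hgr
      exact ⟨C, fun t => by rw [← hVy]; exact hC t⟩)
  obtain ⟨T1, hT1⟩ := T_trick (κ := κ) (n := ∑ t, b t + 1) (J : Set _) Q
    (M * (∏ β, nW β).factorial) hIdx J hJ le_rfl ⟨C1, fun t => by rw [hJhf]; exact hC1 t⟩
  have h4 := hT1 (max T1 Kb) (le_max_left _ _)
  rw [hJhf, hJhf, hb _ (le_max_right _ _)] at h4
  have h5 : (Q : ℤ) ∣ ((M * (∏ β, nW β).factorial * b' : ℕ) : ℤ) := by
    refine h4.trans (dvd_of_eq ?_)
    push_cast
    ring
  have h6 : Q ∣ M * (∏ β, nW β).factorial * b' := Int.natCast_dvd_natCast.mp h5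
  have h7 : Q ∣ M * (∏ β, nW β).factorial *
      ((((∑ j, nU j + ∑ α, nY α) + (∑ t, b t) + 1).choose (∑ j, nU j + ∑ α, nY α)).factorial
        * kk) * a := by
    have h8 : ρ ∣ ((((∑ j, nU j + ∑ α, nY α) + (∑ t, b t) + 1).choose
        (∑ j, nU j + ∑ α, nY α)).factorial) := Nat.dvd_factorial hρ hρle
    obtain ⟨w, hw⟩ := h8
    rw [hw]
    have h9 : M * (∏ β, nW β).factorial * (ρ * w * kk) * a
        = (M * (∏ β, nW β).factorial * b') * (σ * w) := by
      calc M * (∏ β, nW β).factorial * (ρ * w * kk) * a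
          = M * (∏ β, nW β).factorial * w * (ρ * (kk * a)) := by ring
        _ = M * (∏ β, nW β).factorial * w * (σ * b') := by rw [hρσ]
        _ = _ := by ring
    rw [h9]
    exact h6.mul_right _
  refine ⟨Ka, fun t ht => ?_⟩
  rw [hVy, hVy, ha t ht]
  have h8 : (((Module.finrank κ (V κ yb t) + a : ℕ) : ℤ) - (Module.finrank κ (V κ yb t) : ℤ)) = a := by
    push_cast
    ring
  rw [h8, ← Nat.cast_mul]
  exact Int.natCast_dvd_natCast.mpr h7

end Pool.Agent.Helper14D
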