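import Mathlib
import Pool.Agent.Helper4.VD.Dens2

/-!
# Density of the exceptional degree tuples, II (after helper4)
-/

set_option autoImplicit false

namespace Pool.Agent.Helper14D

open Finset Filter Topology
open Pool.Agent.Helper4.VD
open scoped Classical

/-- exceptional tuples: some `d i` is a prime power times a number less than `a0`, or some prime
`p ≤ a0` or dividing two of the degrees has a power `p ^ k` dividing some `d i < c * (p ^ k) ^ e` -/
def ExT (a0 c e : ℕ) {r : ℕ} (d : Fin r → ℕ) : Prop :=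
  (∃ (i : Fin r) (p k : ℕ), p.Prime ∧ p ^ k ∣ d i ∧ d i < a0 * p ^ k) ∨
    ∃ p : ℕ, p.Prime ∧ (p ≤ a0 ∨ ∃ i j : Fin r, i ≠ j ∧ p ∣ d i ∧ p ∣ d j) ∧
      ∃ (i : Fin r) (k : ℕ), p ^ k ∣ d i ∧ d i < c * (p ^ k) ^ e

theorem t_dens3 (h : S_dens) (a0 c e r : ℕ) : Filter.Tendsto (fun X : ℕ =>
  ((Set.ncard {d : Fin r → ℕ | (∀ i, 0 < d i ∧ d i ≤ X) ∧ ExT a0 c e d} : ℕ) : ℝ) / (X : ℝ) ^ r)
  Filter.atTop (nhds 0) := by
  obtain ⟨S1, hS1def⟩ : ∃ S1 : Set ℕ, S1 = {d : ℕ | ∃ p k : ℕ, p.Prime ∧ p ^ k ∣ d ∧ d < a0 * p ^ k} :=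
    ⟨_, rfl⟩
  have hS1 : Z S1 := by
    refine squeeze_zero (fun X => by positivity) (fun X => ?_) (h a0)
    refine div_le_div_of_nonneg_right ?_ (Nat.cast_nonneg _)
    have e1 : cnt S1 X = Set.ncard (↑((Ioc 0 X).filter (· ∈ S1)) : Set ℕ) :=
      (Set.ncard_coe_finset _).symm
    rw [e1]
    have hfin : ({d : ℕ | d ≤ X ∧ ∃ p k : ℕ, p.Prime ∧ p ^ k ∣ d ∧ d < a0 * p ^ k}).Finite :=
      (Set.finite_Iic X).subset fun d hd => hd.1
    have h2 := Set.ncard_le_ncard (s := (↑((Ioc 0 X).filter (· ∈ S1)) : Set ℕ)) (by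
      intro d hd
      rw [mem_coe, mem_filter, mem_Ioc, hS1def] at hd
      exact ⟨hd.1.2, hd.2⟩) hfin
    exact_mod_cast h2
  rw [Metric.tendsto_atTop]
  intro ε hε
  obtain ⟨B, hB, hBa⟩ : ∃ B : ℕ, 3 * (r : ℝ) ^ 2 / ε < B ∧ a0 ≤ B := by
    obtain ⟨B0, hB0⟩ := exists_nat_gt (3 * (r : ℝ) ^ 2 / ε)
    refine ⟨max B0 a0, hB0.trans_le ?_, le_max_right _ _⟩
    exact_mod_cast le_max_left B0 a0
  obtain ⟨SB, hSBdef⟩ : ∃ SB : Set ℕ, SB = {d | ∃ p < B + 2, d ∈ Dp c e p} := ⟨_, rfl⟩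
  have hSB : Z SB := by
    rw [hSBdef]
    exact Z_biUnion _ _ fun p _ => Z_Dp c e p
  have hε' : 0 < ε / (3 * ((r : ℝ) + 1)) := by positivity
  obtain ⟨N1, hN1⟩ := Metric.tendsto_atTop.1 hS1 _ hε'
  obtain ⟨N2, hN2⟩ := Metric.tendsto_atTop.1 hSB _ hε'
  refine ⟨max (max N1 N2) 1, fun X hX => ?_⟩
  have hXN1 := hN1 X ((le_max_left _ _).trans ((le_max_left _ _).trans hX))
  have hXN2 := hN2 X ((le_max_right _ _).trans ((le_max_left _ _).trans hX))
  have hX1 : 0 < X := (le_max_right _ _).trans hX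
  have hX0 : (0 : ℝ) < X := by exact_mod_cast hX1
  rw [Real.dist_eq, sub_zero, abs_of_nonneg (by positivity)] at hXN1 hXN2
  rw [Real.dist_eq, sub_zero, abs_of_nonneg (by positivity)]
  -- the covering
  set Q2 : Finset (Fin r → ℕ) := (univ : Finset (Fin r × Fin r)).biUnion fun ij =>
    (Ioc (B + 1) (max X (B + 1))).biUnion fun p => if ij.1 ≠ ij.2 then P2 X p ij.1 ij.2 else ∅ with hQ2
  have hcov : {d : Fin r → ℕ | (∀ i, 0 < d i ∧ d i ≤ X) ∧ ExT a0 c e d} ⊆
      ↑((univ.biUnion fun i => P1 S1 X i) ∪ Q2 ∪ (univ.biUnion fun i => P1 SB X i)) := by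
    rintro d ⟨hbox, hexc⟩
    rw [mem_coe, mem_union, mem_union]
    rcases hexc with ⟨i, p, k, h1, h2, h3⟩ | ⟨p, hp, hsh, i', k, h3, h4⟩
    · left
      left
      rw [mem_biUnion]
      refine ⟨i, mem_univ _, ?_⟩
      unfold P1
      rw [Fintype.mem_piFinset]
      intro l
      split_ifs with hl
      · subst hl
        rw [mem_filter, mem_Ioc, hS1def]
        exact ⟨hbox l, p, k, h1, h2, h3⟩
      · rw [mem_Ioc]
        exact hbox l
    · by_cases hpB : p < B + 2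
      · right
        rw [mem_biUnion]
        refine ⟨i', mem_univ _, ?_⟩
        unfold P1
        rw [Fintype.mem_piFinset]
        intro l
        split_ifs with hl
        · subst hl
          rw [mem_filter, mem_Ioc, hSBdef]
          exact ⟨hbox l, p, hpB, hp, k, h3, h4⟩
        · rw [mem_Ioc]
          exact hbox l
      · obtain ⟨i, j, hij, h1, h2⟩ := hsh.resolve_left (by omega)
        left
        right
        rw [hQ2, mem_biUnion]
        refine ⟨(i, j), mem_univ _, ?_⟩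
        rw [mem_biUnion]
        refine ⟨p, ?_, ?_⟩
        · rw [mem_Ioc]
          have := Nat.le_of_dvd (hbox i).1 h1
          have := (hbox i).2
          exact ⟨by omega, le_max_of_le_left (by omega)⟩
        · rw [if_pos hij]
          unfold P2
          rw [Fintype.mem_piFinset]
          intro l
          split_ifs with hl
          · rw [mem_filter, mem_Ioc]
            refine ⟨hbox l, ?_⟩
            rcases hl with rfl | rfl
            · exact h1
            · exact h2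
          · rw [mem_Ioc]
            exact hbox l
  have hcard : Set.ncard {d : Fin r → ℕ | (∀ i, 0 < d i ∧ d i ≤ X) ∧ ExT a0 c e d} ≤
      (∑ i, (P1 (r := r) S1 X i).card) + (∑ ij : Fin r × Fin r, ∑ p ∈ Ioc (B + 1) (max X (B + 1)),
        (if ij.1 ≠ ij.2 then P2 X p ij.1 ij.2 else ∅).card) + ∑ i, (P1 (r := r) SB X i).card := by
    refine (Set.ncard_le_ncard hcov (finite_toSet _)).trans ?_
    rw [Set.ncard_coe_finset]
    refine (card_union_le _ _).trans (Nat.add_le_add ((card_union_le _ _).trans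
      (Nat.add_le_add card_biUnion_le ?_)) card_biUnion_le)
    exact card_biUnion_le.trans (sum_le_sum fun ij _ => card_biUnion_le)
  have hratio : (Set.ncard {d : Fin r → ℕ | (∀ i, 0 < d i ∧ d i ≤ X) ∧ ExT a0 c e d} : ℝ) /
      (X : ℝ) ^ r ≤ (∑ i, ((P1 (r := r) S1 X i).card : ℝ) / (X : ℝ) ^ r) +
        (∑ ij : Fin r × Fin r, ∑ p ∈ Ioc (B + 1) (max X (B + 1)),
        ((if ij.1 ≠ ij.2 then P2 X p ij.1 ij.2 else ∅).card : ℝ) / (X : ℝ) ^ r) +
        ∑ i, ((P1 (r := r) SB X i).card : ℝ) / (X : ℝ) ^ r := by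
    simp only [← sum_div]
    rw [← add_div, ← add_div]
    refine div_le_div_of_nonneg_right ?_ (by positivity)
    exact_mod_cast hcard
  have hb1 : ∑ i, ((P1 (r := r) S1 X i).card : ℝ) / (X : ℝ) ^ r ≤ r * (ε / (3 * ((r : ℝ) + 1))) := by
    refine (sum_le_sum fun i _ => (ratio_P1 S1 X i).trans hXN1.le).trans (le_of_eq ?_)
    rw [sum_const, card_univ, Fintype.card_fin, nsmul_eq_mul]
  have hb3 : ∑ i, ((P1 (r := r) SB X i).card : ℝ) / (X : ℝ) ^ r ≤ r * (ε / (3 * ((r : ℝ) + 1))) := by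
    refine (sum_le_sum fun i _ => (ratio_P1 SB X i).trans hXN2.le).trans (le_of_eq ?_)
    rw [sum_const, card_univ, Fintype.card_fin, nsmul_eq_mul]
  have hb2 : ∑ ij : Fin r × Fin r, ∑ p ∈ Ioc (B + 1) (max X (B + 1)),
        ((if ij.1 ≠ ij.2 then P2 X p ij.1 ij.2 else ∅).card : ℝ) / (X : ℝ) ^ r ≤
        (r : ℝ) ^ 2 * ((B + 1 : ℕ) : ℝ)⁻¹ := by
    have h1 : ∀ ij : Fin r × Fin r, ∑ p ∈ Ioc (B + 1) (max X (B + 1)),
        ((if ij.1 ≠ ij.2 then P2 X p ij.1 ij.2 else ∅).card : ℝ) / (X : ℝ) ^ r ≤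
        ((B + 1 : ℕ) : ℝ)⁻¹ := by
      intro ij
      have h2 : ∑ p ∈ Ioc (B + 1) (max X (B + 1)), ((p : ℝ) ^ 2)⁻¹ ≤ ((B + 1 : ℕ) : ℝ)⁻¹ := by
        have := sum_Ioc_inv_sq_le_sub (α := ℝ) (k := B + 1) (n := max X (B + 1)) (by omega)
          (le_max_right _ _)
        refine this.trans ?_
        have : (0 : ℝ) ≤ ((max X (B + 1) : ℕ) : ℝ)⁻¹ := by positivity
        linarith
      refine (sum_le_sum fun p hp => ?_).trans h2
      split_ifs with hij
      · exact ratio_P2 X p hX1 _ _ hij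
      · simp only [card_empty, Nat.cast_zero, zero_div]
        positivity
    refine (sum_le_sum fun ij _ => h1 ij).trans (le_of_eq ?_)
    rw [sum_const, card_univ, Fintype.card_prod, Fintype.card_fin, nsmul_eq_mul]
    push_cast
    ring
  have hB1 : (r : ℝ) ^ 2 * ((B + 1 : ℕ) : ℝ)⁻¹ < ε / 3 := by
    rw [← div_eq_mul_inv, div_lt_iff₀ (by positivity)]
    rw [div_lt_iff₀ hε] at hB
    push_cast
    nlinarith
  have hr1 : (r : ℝ) * (ε / (3 * ((r : ℝ) + 1))) ≤ ε / 3 := by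
    rw [mul_div_assoc', div_le_div_iff₀ (by positivity) (by norm_num)]
    nlinarith [hε.le, (Nat.cast_nonneg r : (0 : ℝ) ≤ r)]
  linarith

end Pool.Agent.Helper14D
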