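import Mathlib
import Pool.Agent.Helper14D.CaseG
import Pool.Agent.Helper37.VD.Main

/-!
# The generic projection over the field `K1`
-/

set_option autoImplicit false
set_option linter.unusedSectionVars false

open MvPolynomial

namespace Pool.Agent.Helper14D

open Pool.Agent.Helper14C Pool.Agent.TH922.KC

section

variable {K : Type} [Field K] [CharZero K] {N : ℕ} {τ : Type} [Fintype τ] [DecidableEq τ]
  {m : τ → ℕ} {u v : τ → MvPolynomial (Fin (N + 1)) ℚ} {M1 : ℕ} {b : τ → ℕ} {kk : ℕ}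
  {η : Fin (N + 1) → Fin (N + 1) → K} {lam : Fin (N + 1) → τ → K}

lemma yy_hom (hu : ∀ t, (u t).IsHomogeneous (m t)) (hv : ∀ t, (v t).IsHomogeneous (m t))
    (j : Fin (N + 1)) : (yy u v M1 η lam j).IsHomogeneous (1 + M1 * ∑ t, m t) := by
  rw [Helper37.VD.yy_expand]
  refine IsHomogeneous.sum _ _ _ fun β _ => ?_
  have h1 := (isHomogeneous_C (Fin (N + 1)) (Helper37.VD.cf (η j) (lam j) β)).mul
    ((WW_hom (M1 := M1) hu hv β).map (algebraMap ℚ K))
  rw [zero_add] at h1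
  exact h1

lemma yy_mem (j : Fin (N + 1)) : yy u v M1 η lam j ∈ Algebra.adjoin K
    (Set.range fun β : Ix N τ M1 => MvPolynomial.map (algebraMap ℚ K) (WW u v M1 β)) := by
  rw [Helper37.VD.yy_expand]
  refine Subalgebra.sum_mem _ fun β _ => Subalgebra.mul_mem _ ?_ (Algebra.subset_adjoin ⟨β, rfl⟩)
  exact Subalgebra.algebraMap_mem _ _

lemma WW_int_y (hval : S_val) (hbpf : S_bpf)
    (hu : ∀ t, (u t).IsHomogeneous (m t)) (hv : ∀ t, (v t).IsHomogeneous (m t))
    (hu0 : ∀ t, u t ≠ 0) (hv0 : ∀ t, v t ≠ 0) (hGen : Gen η lam) (β : Ix N τ M1) :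
    IsIntegral (Algebra.adjoin K (Set.range (yy u v M1 η lam)))
      (MvPolynomial.map (algebraMap ℚ K) (WW u v M1 β)) := by
  set E := FractionRing (MvPolynomial (Fin (N + 1)) K) with hE
  set A0 := Algebra.adjoin K (Set.range fun j => algebraMap (MvPolynomial (Fin (N + 1)) K) E
    (yy u v M1 η lam j)) with hA0
  have h1 : IsIntegral A0.toSubring (algebraMap (MvPolynomial (Fin (N + 1)) K) E
      (MvPolynomial.map (algebraMap ℚ K) (WW u v M1 β))) := by
    refine hval E A0.toSubring _ ?_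
    intro O hO
    obtain ⟨j0, hj0⟩ := hbpf N τ m u v M1 K η lam hu hv hu0 hv0 hGen O (fun a =>
      hO (A0.algebraMap_mem a))
    have h2 := hj0 β
    have h3 : vl O (yy u v M1 η lam j0) ≤ 1 := by
      unfold vl
      rw [ValuationSubring.valuation_le_one_iff]
      exact hO (Algebra.subset_adjoin ⟨j0, rfl⟩)
    have h4 := h2.trans h3
    unfold vl at h4
    rw [ValuationSubring.valuation_le_one_iff] at h4
    exact h4
  have h2 : IsIntegral A0 (algebraMap (MvPolynomial (Fin (N + 1)) K) E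
      (MvPolynomial.map (algebraMap ℚ K) (WW u v M1 β))) := by
    let θ : A0.toSubring →+* A0 :=
      { toFun := fun x => ⟨x.1, x.2⟩
        map_one' := rfl
        map_mul' := fun _ _ => rfl
        map_zero' := rfl
        map_add' := fun _ _ => rfl }
    refine h1.map_of_comp_eq θ (RingHom.id E) ?_
    ext z
    rfl
  rw [hA0, int_iff] at h2
  obtain ⟨n, A, hA⟩ := h2
  rw [int_iff]
  refine ⟨n, A, ?_⟩
  apply IsFractionRing.injective (MvPolynomial (Fin (N + 1)) K) E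
  rw [map_zero, ← hA, map_add, map_pow, map_sum]
  congr 1
  refine Finset.sum_congr rfl fun i _ => ?_
  rw [map_mul, map_pow]
  congr 1
  exact (aeval_algebraMap_apply (R := K) (A := MvPolynomial (Fin (N + 1)) K) E
    (yy u v M1 η lam) (A i)).symm

lemma hQC (c : ℚ) : MvPolynomial.map (σ := Fin (N + 1)) (algebraMap ℚ K) (algebraMap ℚ _ c)
    = algebraMap K _ (algebraMap ℚ K c) := by
  rw [MvPolynomial.algebraMap_eq, MvPolynomial.algebraMap_eq, map_C]

lemma g0_int_y (hval : S_val) (hbpf : S_bpf)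
    (hu : ∀ t, (u t).IsHomogeneous (m t)) (hv : ∀ t, (v t).IsHomogeneous (m t))
    (hu0 : ∀ t, u t ≠ 0) (hv0 : ∀ t, v t ≠ 0) (hGen : Gen η lam)
    (h1 : ∀ j, IsIntegral (Algebra.adjoin ℚ (Set.range (WW u v M1))) ((UU u v b).coeff j))
    (h3 : ∀ γ : Gm N τ M1, IsIntegral (Algebra.adjoin ℚ (Set.range (WW u v M1)))
      (∏ t, wp u v M1 t (γ.1 t) ^ b t)) (i : GI N τ M1 b) :
    IsIntegral (Algebra.adjoin K (Set.range (yy u v M1 η lam)))
      (MvPolynomial.map (algebraMap ℚ K) (g0 u v M1 b i)) := by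
  have hW : ∀ x ∈ Set.range (fun β : Ix N τ M1 => MvPolynomial.map (algebraMap ℚ K) (WW u v M1 β)),
      IsIntegral (Algebra.adjoin K (Set.range (yy u v M1 η lam))) x := by
    rintro _ ⟨β, rfl⟩
    exact WW_int_y hval hbpf hu hv hu0 hv0 hGen β
  rcases i with β | j | γ
  · exact hW _ ⟨β, rfl⟩
  · exact int_trans hW (int_bc (algebraMap ℚ K) (MvPolynomial.map (algebraMap ℚ K)) hQC _ _ (h1 j))
  · exact int_trans hW (int_bc (algebraMap ℚ K) (MvPolynomial.map (algebraMap ℚ K)) hQC _ _ (h3 γ))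

/-- the equations of the `UU` over `y` -/
theorem exU (hval : S_val) (hbpf : S_bpf) (hhom : S_homint)
    (hu : ∀ t, (u t).IsHomogeneous (m t)) (hv : ∀ t, (v t).IsHomogeneous (m t))
    (hu0 : ∀ t, u t ≠ 0) (hv0 : ∀ t, v t ≠ 0) (hGen : Gen η lam)
    (hD : ∑ t, m t * b t = kk * (1 + M1 * ∑ t, m t))
    (h1 : ∀ j, IsIntegral (Algebra.adjoin ℚ (Set.range (WW u v M1))) ((UU u v b).coeff j))
    (h3 : ∀ γ : Gm N τ M1, IsIntegral (Algebra.adjoin ℚ (Set.range (WW u v M1)))
      (∏ t, wp u v M1 t (γ.1 t) ^ b t)) (j : Fin (∑ t, b t + 1)) :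
    ∃ n : ℕ, 0 < n ∧ ∃ A : ℕ → MvPolynomial (Fin (N + 1)) K, (∀ i, (A i).IsHomogeneous (kk * i)) ∧
      (MvPolynomial.map (algebraMap ℚ K) ((UU u v b).coeff (j : ℕ))) ^ n +
        ∑ i ∈ Finset.range n, aeval (yy u v M1 η lam) (A (i + 1)) *
          (MvPolynomial.map (algebraMap ℚ K) ((UU u v b).coeff (j : ℕ))) ^ (n - 1 - i) = 0 := by
  obtain ⟨n, A, hn, hA, hAe⟩ := hhom K (Fin (N + 1)) (Fin (N + 1)) (yy u v M1 η lam)
    (1 + M1 * ∑ t, m t) kk (MvPolynomial.map (algebraMap ℚ K) ((UU u v b).coeff (j : ℕ)))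
    (by omega) (yy_hom hu hv) (by
      have := (UU_hom (b := b) hu hv (j : ℕ)).map (algebraMap ℚ K)
      rw [hD] at this
      exact this)
    (g0_int_y hval hbpf hu hv hu0 hv0 hGen h1 h3 (Sum.inr (Sum.inl j)))
  exact ⟨n, hn, A, hA, hAe⟩

/-- the equations of the monomials in `y` over the `UU` -/
theorem exY (hhom : S_homint) (hkk : 0 < kk)
    (hu : ∀ t, (u t).IsHomogeneous (m t)) (hv : ∀ t, (v t).IsHomogeneous (m t))
    (hD : ∑ t, m t * b t = kk * (1 + M1 * ∑ t, m t))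
    (h2 : ∀ β, IsIntegral (Algebra.adjoin ℚ (Set.range fun j : Fin (∑ t, b t + 1) =>
      (UU u v b).coeff (j : ℕ))) (WW u v M1 β)) (α : It (Fin (N + 1)) kk) :
    ∃ n : ℕ, 0 < n ∧ ∃ A : ℕ → MvPolynomial (Fin (∑ t, b t + 1)) K, (∀ i, (A i).IsHomogeneous i) ∧
      (aeval (yy u v M1 η lam) (monomial α.1 (1 : K))) ^ n + ∑ i ∈ Finset.range n,
        aeval (fun j : Fin (∑ t, b t + 1) => MvPolynomial.map (algebraMap ℚ K)
          ((UU u v b).coeff (j : ℕ))) (A (i + 1)) *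
          (aeval (yy u v M1 η lam) (monomial α.1 (1 : K))) ^ (n - 1 - i) = 0 := by
  have hmem : aeval (yy u v M1 η lam) (monomial α.1 (1 : K)) ∈ Algebra.adjoin K
      (Set.range fun β : Ix N τ M1 => MvPolynomial.map (algebraMap ℚ K) (WW u v M1 β)) := by
    have h4 : Algebra.adjoin K (Set.range (yy u v M1 η lam)) ≤ Algebra.adjoin K
      (Set.range fun β : Ix N τ M1 => MvPolynomial.map (algebraMap ℚ K) (WW u v M1 β)) := by
      refine Algebra.adjoin_le ?_
      rintro _ ⟨j, rfl⟩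
      exact yy_mem j
    apply h4
    rw [Algebra.adjoin_range_eq_range_aeval]
    exact ⟨_, rfl⟩
  have hint : IsIntegral (Algebra.adjoin K (Set.range fun j : Fin (∑ t, b t + 1) =>
      MvPolynomial.map (algebraMap ℚ K) ((UU u v b).coeff (j : ℕ))))
      (aeval (yy u v M1 η lam) (monomial α.1 (1 : K))) := by
    refine int_trans (S := Set.range fun β : Ix N τ M1 =>
      MvPolynomial.map (algebraMap ℚ K) (WW u v M1 β)) ?_ ?_
    · rintro _ ⟨β, rfl⟩
      exact int_bc (algebraMap ℚ K) (MvPolynomial.map (algebraMap ℚ K)) hQC _ _ (h2 β)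
    · exact isIntegral_algebraMap (R := Algebra.adjoin K (Set.range fun β : Ix N τ M1 =>
        MvPolynomial.map (algebraMap ℚ K) (WW u v M1 β))) (x := ⟨_, hmem⟩)
  obtain ⟨n, A, hn, hA, hAe⟩ := hhom K (Fin (∑ t, b t + 1)) (Fin (N + 1))
    (fun j => MvPolynomial.map (algebraMap ℚ K) ((UU u v b).coeff (j : ℕ)))
    (kk * (1 + M1 * ∑ t, m t)) 1 (aeval (yy u v M1 η lam) (monomial α.1 (1 : K)))
    (Nat.mul_pos hkk (by omega)) (fun j => by
      have := (UU_hom (b := b) hu hv (j : ℕ)).map (algebraMap ℚ K)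
      rw [hD] at this
      exact this) (by
      have h4 : (monomial α.1 (1 : K)).IsHomogeneous kk := isHomogeneous_monomial _ α.2
      have h5 := h4.aeval (yy u v M1 η lam) (yy_hom (m := m) hu hv)
      rw [one_mul, mul_comm kk]
      exact h5) hint
  exact ⟨n, hn, A, fun i => by have := hA i; rw [one_mul] at this; exact this, hAe⟩

end

end Pool.Agent.Helper14D
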