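import Mathlib
import Pool.Agent.Helper14D.Setup
import Pool.Agent.Helper14C.Main1
import Pool.Agent.Helper14C.Num2

/-!
# The main theorem, from the parts
-/

set_option autoImplicit false
set_option linter.unusedSectionVars false

open MvPolynomial

namespace Pool.Agent.Helper14D

open Pool.Agent.Helper14C Pool.Agent.TH922.KC

/-- components of the symmetric norm hypersurface -/
theorem caseA {K1 κ1 : Type} [Field K1] [CharZero K1] [Field κ1] [CharZero κ1] {K0 : Subfield K1}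
    (hroots0 : ∀ l : ℕ, l ≠ 0 → ∃ ζ : K0, IsPrimitiveRoot ζ l) (φ1 : K1 →+* κ1) {N q : ℕ}
    (hq : 0 < q) (bA : ℕ → (Fin N → Fin 2) → K0)
    (hbA : AlgebraicIndependent ℚ (fun z : Fin q × (Fin N → Fin 2) => bA z.1 z.2))
    (cA : (Fin N → Fin (q + 1)) → K1) (hcA : AlgebraicIndependent K0 cA)
    (G : MvPolynomial (Fin (N + 1)) K1) {dG : ℕ} (hGh : G.IsHomogeneous dG)
    (hG : aeval (es (gx K1 N)) G = ∏ σ : Equiv.Perm (Fin N),
        rename (Prod.map σ id) (mfe q (fun a => C (cA a)) (gx K1 N)))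
    (P : Ideal (MvPolynomial (Fin (N + 1)) κ1)) (hP : IsHom P)
    (hGP : MvPolynomial.map φ1 G ∈ P) (hgr : ∃ C : ℕ, ∀ t, hf P t ≤ C * (t + 1)) :
    ∃ T0 : ℕ, ∀ t ≥ T0, (q : ℤ) ∣ (((N - 1).factorial * (N - 1).factorial : ℕ) : ℤ) *
      ((hf P (t + 1) : ℤ) - hf P t) := by
  classical
  let _ : Algebra K0 κ1 := (φ1.comp K0.subtype).toAlgebra
  let φ1' : K1 →ₐ[K0] κ1 := { φ1 with commutes' := fun _ => rfl }
  have hM : ∀ d : Fin 1 → ℕ, (∀ i, 0 < d i) → ∑ i, d i + 1 ≤ N → ∏ i, d i ∣ (N - 1).factorial := by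
    intro d hd hdN
    rw [Fin.sum_univ_one] at hdN
    rw [Fin.prod_univ_one]
    exact Nat.dvd_factorial (hd 0) (by omega)
  refine T_trick (κ := κ1) (n := N + 1) {MvPolynomial.map φ1 G} q
    ((N - 1).factorial * (N - 1).factorial) ?_ P hP (by
      rintro _ rfl
      exact hGP) hgr
  have hcF : CharZero (FractionRing (Polynomial κ1)) :=
    charZero_of_injective_algebraMap (IsFractionRing.injective (Polynomial κ1) _)
  refine idx_of_points _ _ ?_ _ _ ?_
  · rintro _ ⟨_, rfl, rfl⟩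
    exact ⟨dG, (hGh.map _).map _⟩
  · intro L _ _ _ x j hx hT hS
    let ψ : K1 →+* L := (algebraMap (FractionRing (Polynomial κ1)) L).comp
      ((algebraMap κ1 (FractionRing (Polynomial κ1))).comp φ1)
    have hτ : ∃ τ : Equiv.Perm (Fin N), mfe q (fun a => ψ (cA (fun l => a (τ l)))) x = 0 := by
      have h1 := hS _ ⟨_, rfl, rfl⟩
      rw [aeval_def, eval₂_map, eval₂_map] at h1
      have h2 := sym_eval cA hG ψ x
      have h3 : eval₂ ψ (es x) G = 0 := h1
      rw [h3] at h2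
      obtain ⟨τ, -, hτ⟩ := Finset.prod_eq_zero_iff.mp h2.symm
      exact ⟨τ, hτ⟩
    obtain ⟨τ, hτ⟩ := hτ
    have hinj : Function.Injective (fun y : (Σ _ : Fin 1, (Fin N → Fin (q + 1))) =>
        (fun l => y.2 (τ l) : Fin N → Fin (q + 1))) := by
      rintro ⟨i, a⟩ ⟨i', a'⟩ h
      have h1 : i = i' := Subsingleton.elim _ _
      subst h1
      have h3 : a = a' := by
        funext l
        have := congrFun h (τ.symm l)
        simpa using this
      rw [h3]
    have hgen := pt_gen (κ1 := κ1) (r := 1) (Qm := q) hroots0 (fun _ => bA) (by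
        have h1 := hbA.comp (fun z : Fin 1 × Fin q × (Fin N → Fin 2) => (z.2.1, z.2.2)) (by
          rintro ⟨i, z⟩ ⟨i', z'⟩ h
          have h1 : i = i' := Subsingleton.elim _ _
          subst h1
          have h2 : z = z' := h
          rw [h2])
        exact h1) (fun _ => q) (fun _ => hq) (fun _ => le_rfl) (N - 1).factorial hM j
      (fun _ a => φ1 (cA (fun l => a (τ l)))) (by
        have h1 := (hcA.map' (f := φ1') φ1.injective).comp _ hinj
        exact h1)
    have h2 := hgen L x hx hT (fun _ => hτ)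
    rw [Fin.prod_univ_one] at h2
    exact h2

/-- **The main theorem, from the parts.** -/
theorem main3 (hext : S_ext) (hhom : S_homint) (hbc : S_bc) (hcmp : S_cmp) (hval : S_val)
    (hbpf : S_bpf) (hnorm : S_norm) (hspec : S_spec) (hints : S_ints)
    {N : ℕ} (hN : 0 < N) {τ : Type} [Fintype τ] [DecidableEq τ] {m : τ → ℕ}
    {u v : τ → MvPolynomial (Fin (N + 1)) ℚ} {M1 : ℕ} {b : τ → ℕ} {kk : ℕ} (hkk : 0 < kk)
    (c : τ → ℤ) (hM1 : 0 < M1)
    (hu : ∀ t, (u t).IsHomogeneous (m t)) (hv : ∀ t, (v t).IsHomogeneous (m t))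
    (hu0 : ∀ t, u t ≠ 0) (hv0 : ∀ t, v t ≠ 0)
    (hrel : Rel u v c kk) (hb : ∀ t, (b t : ℤ) = c t + kk * M1) (hkb : kk ≤ ∑ t, b t)
    (hD : ∑ t, m t * b t = kk * (1 + M1 * ∑ t, m t))
    (hproj : ∀ (k : Type) [Field k] [CharZero k] (η : Fin (N + 1) → Fin (N + 1) → k)
      (lam : Fin (N + 1) → τ → k), Gen η lam →
      AlgebraicIndependent k (yy u v M1 η lam) ∧
      FiniteDimensional (Fy (yy u v M1 η lam)) (FractionRing (MvPolynomial (Fin (N + 1)) k)) ∧
      Nat.Coprime (Module.finrank (Fy (yy u v M1 η lam))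
        (FractionRing (MvPolynomial (Fin (N + 1)) k))) N.factorial) :
    ∃ M a0 : ℕ, 0 < M ∧ 0 < a0 ∧ ∀ (r : ℕ) (d : Fin r → ℕ),
    ∃ bad : ℕ → MvPolynomial (Σ i : Fin r, {μ : Fin (N + 1) →₀ ℕ // μ.degree = d i}) ℂ,
      (∀ j, bad j ≠ 0) ∧
      ∀ f : Fin r → MvPolynomial (Fin (N + 1)) ℂ,
        (∀ i, f i ∈ MvPolynomial.homogeneousSubmodule (Fin (N + 1)) ℂ (d i)) →
        (∀ j, MvPolynomial.eval (fun x => MvPolynomial.coeff x.2.1 (f x.1)) (bad j) ≠ 0) →
        ∀ I : Ideal (MvPolynomial (Fin (N + 1)) ℂ),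
          (∀ p ∈ I, ∀ k : ℕ, MvPolynomial.homogeneousComponent k p ∈ I) →
          I.IsPrime →
          ringKrullDim (MvPolynomial (Fin (N + 1)) ℂ ⧸ I) = 2 →
          (∀ i, f i ∈ I) →
          ∀ (i : Fin r) (q : ℕ), 0 < q → q ∣ d i → a0 * q ≤ d i →
            ∃ K : ℕ, ∀ k : ℕ, K ≤ k →
              (q : ℤ) ∣ (M : ℤ) *
                ((Module.finrank ℂ (Submodule.map (Ideal.Quotient.mkₐ ℂ I).toLinearMap
                    (MvPolynomial.homogeneousSubmodule (Fin (N + 1)) ℂ (k + 1))) : ℤ) -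
                (Module.finrank ℂ (Submodule.map (Ideal.Quotient.mkₐ ℂ I).toLinearMap
                    (MvPolynomial.homogeneousSubmodule (Fin (N + 1)) ℂ k)) : ℤ)) := by
  classical
  obtain ⟨K1, hcount, hroots, hindep⟩ := exists_countable_field
  have hcK : CharZero K1 := inferInstance
  -- the projection
  obtain ⟨ul, hul⟩ := hindep ((Fin (N + 1) × Fin (N + 1)) ⊕ (Fin (N + 1) × τ))
  let η : Fin (N + 1) → Fin (N + 1) → K1 := fun i j => ul (Sum.inl (i, j))
  let lam : Fin (N + 1) → τ → K1 := fun i t => ul (Sum.inr (i, t))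
  have hGen : Gen η lam := by
    unfold Gen
    have : (Sum.elim (fun z : Fin (N + 1) × Fin (N + 1) => η z.1 z.2)
        (fun z : Fin (N + 1) × τ => lam z.1 z.2)) = ul := by
      funext y
      rcases y with y | y <;> rfl
    rw [this]
    exact hul
  obtain ⟨hAI, hFD, hcop⟩ := hproj K1 η lam hGen
  set y := yy u v M1 η lam with hy
  set e := Module.finrank (Fy y) (FractionRing (MvPolynomial (Fin (N + 1)) K1)) with he
  have he0 : 0 < e := Module.finrank_pos
  obtain ⟨h1, h2, h3'⟩ := hints N τ u v c kk M1 b hu0 hv0 hrel hkk hM1 hb hkb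
  have h3 : ∀ γ : Gm N τ M1, IsIntegral (Algebra.adjoin ℚ (Set.range (WW u v M1)))
      (∏ t, wp u v M1 t (γ.1 t) ^ b t) := fun γ => h3' γ.1 γ.2
  have hW : ∀ β, ∃ (n : ℕ) (A : ℕ → MvPolynomial (Fin (∑ t, b t + 1)) ℚ),
      WW u v M1 β ^ n + ∑ i ∈ Finset.range n, aeval (fun j : Fin (∑ t, b t + 1) =>
        (UU u v b).coeff (j : ℕ)) (A i) * WW u v M1 β ^ i = 0 := fun β =>
    (int_iff (fun j : Fin (∑ t, b t + 1) => (UU u v b).coeff (j : ℕ)) (WW u v M1 β)).mp (h2 β)
  choose nW hnW using hW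
  have hUex := exU (K := K1) (b := b) (kk := kk) hval hbpf hhom hu hv hu0 hv0 hGen hD h1 h3
  choose nU hnU hU using hUex
  have hYex := exY (K := K1) (b := b) (kk := kk) (η := η) (lam := lam) hhom hkk hu hv hD h2
  choose nY hnY hY using hYex
  have hgy := g0_int_y (K := K1) (b := b) hval hbpf hu hv hu0 hv0 hGen h1 h3
  set R0 := ((((∑ j, nU j + ∑ α, nY α) + (∑ t, b t) + 1).choose
    (∑ j, nU j + ∑ α, nY α)).factorial * kk) with hR0
  have hR0pos : 0 < R0 := Nat.mul_pos (Nat.factorial_pos _) hkk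
  refine ⟨((N - 1).factorial * (∏ β, nW β).factorial * R0) * ((N - 1).factorial * (N - 1).factorial),
    N.factorial * e, ?_, ?_, ?_⟩
  · exact Nat.mul_pos (Nat.mul_pos (Nat.mul_pos (Nat.factorial_pos _) (Nat.factorial_pos _)) hR0pos)
      (Nat.mul_pos (Nat.factorial_pos _) (Nat.factorial_pos _))
  · exact Nat.mul_pos (Nat.factorial_pos _) he0
  intro r d
  set σ := (Σ i : Fin r, {μ : Fin (N + 1) →₀ ℕ // μ.degree = d i}) with hσ
  have hcp : Countable (MvPolynomial σ K1) := by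
    rw [← Cardinal.mk_le_aleph0_iff]
    refine MvPolynomial.cardinalMk_le_max.trans ?_
    simp only [max_le_iff, le_refl, and_true]
    exact ⟨Cardinal.mk_le_aleph0_iff.mpr hcount, Cardinal.mk_le_aleph0_iff.mpr inferInstance⟩
  have hne : Nonempty {p : MvPolynomial σ K1 // p ≠ 0} := ⟨⟨1, one_ne_zero⟩⟩
  obtain ⟨en, hen⟩ := exists_surjective_nat {p : MvPolynomial σ K1 // p ≠ 0}
  refine ⟨fun j => MvPolynomial.map K1.subtype (en j).1, fun j => ?_, ?_⟩
  · have h1 := (en j).2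
    intro h
    exact h1 ((map_eq_zero_iff _ (MvPolynomial.map_injective _ K1.subtype.injective)).mp h)
  intro f hfh hbad I hI hIp hdim hfI i q hq hqd ha0
  have hind : AlgebraicIndependent K1 (fun x : σ => coeff x.2.1 (f x.1)) := by
    rw [algebraicIndependent_iff]
    intro p hp
    by_contra hp0
    obtain ⟨l, hl⟩ := hen ⟨p, hp0⟩
    apply hbad l
    change MvPolynomial.eval _ (MvPolynomial.map K1.subtype (en l).1) = 0
    rw [hl, MvPolynomial.eval_map]
    exact hp
  -- the generic parameters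
  obtain ⟨uc, huc⟩ := hindep ((It (Ix N τ M1) q ⊕ (Fin N → Fin (q + 1))) ⊕
    ((Fin q × Ix N τ M1) ⊕ (Fin q × (Fin N → Fin 2))))
  let cc : (It (Ix N τ M1) q ⊕ (Fin N → Fin (q + 1))) → K1 := fun y => uc (Sum.inl y)
  let w : ((Fin q × Ix N τ M1) ⊕ (Fin q × (Fin N → Fin 2))) → K1 := fun y => uc (Sum.inr y)
  have hcb : AlgebraicIndependent ℚ (Sum.elim cc w) := by
    have : Sum.elim cc w = uc := by
      funext y
      rcases y with y | y <;> rfl
    rw [this]
    exact huc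
  obtain ⟨hc0, hw0⟩ := indep_closure cc w hcb
  let K0 : Subfield K1 := Lf (Set.range w)
  have hcK0 : CharZero K0 := inferInstance
  have hroots0 : ∀ l : ℕ, l ≠ 0 → ∃ ζ : K0, IsPrimitiveRoot ζ l := by
    intro l hl
    obtain ⟨ζ, hζ⟩ := hroots l hl
    have hζ0 : ζ ∈ K0 := by
      apply Lf_of_alg
      refine (IsIntegral.of_pow (Nat.pos_of_ne_zero hl) ?_).isAlgebraic
      rw [hζ.pow_eq_one]
      exact isIntegral_one
    refine ⟨⟨ζ, hζ0⟩, IsPrimitiveRoot.of_map_of_injective (f := K0.subtype) ?_ K0.subtype.injective⟩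
    exact hζ
  let w0 : ((Fin q × Ix N τ M1) ⊕ (Fin q × (Fin N → Fin 2))) → K0 :=
    fun y => ⟨w y, Lf_of_mem ⟨y, rfl⟩⟩
  let bW : ℕ → Ix N τ M1 → K0 := fun k β => if h : k < q then w0 (Sum.inl (⟨k, h⟩, β)) else 0
  let bA : ℕ → (Fin N → Fin 2) → K0 := fun k g => if h : k < q then w0 (Sum.inr (⟨k, h⟩, g)) else 0
  have hbW : AlgebraicIndependent ℚ (fun z : Fin q × Ix N τ M1 => bW z.1 z.2) := by
    have h4 := hw0.comp (fun z : Fin q × Ix N τ M1 =>
      (Sum.inl z : ((Fin q × Ix N τ M1) ⊕ (Fin q × (Fin N → Fin 2))))) Sum.inl_injective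
    have : (fun z : Fin q × Ix N τ M1 => bW z.1 z.2) = w0 ∘ fun z : Fin q × Ix N τ M1 =>
      (Sum.inl z : ((Fin q × Ix N τ M1) ⊕ (Fin q × (Fin N → Fin 2)))) := by
      funext z
      simp only [bW, Function.comp_apply]
      rw [dif_pos z.1.2]
    rw [this]
    exact h4
  have hbA : AlgebraicIndependent ℚ (fun z : Fin q × (Fin N → Fin 2) => bA z.1 z.2) := by
    have h4 := hw0.comp (fun z : Fin q × (Fin N → Fin 2) =>
      (Sum.inr z : ((Fin q × Ix N τ M1) ⊕ (Fin q × (Fin N → Fin 2))))) Sum.inr_injective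
    have : (fun z : Fin q × (Fin N → Fin 2) => bA z.1 z.2) = w0 ∘ fun z : Fin q × (Fin N → Fin 2) =>
      (Sum.inr z : ((Fin q × Ix N τ M1) ⊕ (Fin q × (Fin N → Fin 2)))) := by
      funext z
      simp only [bA, Function.comp_apply]
      rw [dif_pos z.1.2]
    rw [this]
    exact h4
  let c1 : It (Ix N τ M1) q → K1 := fun μ => cc (Sum.inl μ)
  let cA : (Fin N → Fin (q + 1)) → K1 := fun a => cc (Sum.inr a)
  have hc1 : AlgebraicIndependent K0 c1 := hc0.comp _ Sum.inl_injective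
  have hcA : AlgebraicIndependent K0 cA := hc0.comp _ Sum.inr_injective
  -- the norm form
  let s0 : MvPolynomial (Ix N τ M1) K1 := tp (Ix N τ M1) K1 q c1
  have hs0 : s0.IsHomogeneous q := tp_hom q c1
  let s : MvPolynomial (Fin (N + 1)) K1 :=
    aeval (fun β => MvPolynomial.map (algebraMap ℚ K1) (WW u v M1 β)) s0
  have hsh : s.IsHomogeneous (q * (1 + M1 * ∑ t, m t)) := by
    have h4 := hs0.aeval (fun β => MvPolynomial.map (algebraMap ℚ K1) (WW u v M1 β))
      (fun β => (WW_hom (M1 := M1) hu hv β).map (algebraMap ℚ K1))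
    rw [mul_comm]
    exact h4
  have hsint : IsIntegral (Algebra.adjoin K1 (Set.range y)) s := by
    refine int_trans (S := Set.range fun β : Ix N τ M1 =>
      MvPolynomial.map (algebraMap ℚ K1) (WW u v M1 β)) ?_ ?_
    · rintro _ ⟨β, rfl⟩
      exact hgy (Sum.inl β)
    · have hmem : s ∈ Algebra.adjoin K1 (Set.range fun β : Ix N τ M1 =>
          MvPolynomial.map (algebraMap ℚ K1) (WW u v M1 β)) := by
        rw [Algebra.adjoin_range_eq_range_aeval]
        exact ⟨s0, rfl⟩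
      exact isIntegral_algebraMap (R := Algebra.adjoin K1 (Set.range fun β : Ix N τ M1 =>
        MvPolynomial.map (algebraMap ℚ K1) (WW u v M1 β))) (x := ⟨_, hmem⟩)
  obtain ⟨n, G, hn, hGh, hne', hG⟩ := hnorm K1 N y (1 + M1 * ∑ t, m t) (by omega)
    (yy_hom hu hv) hAI hFD s q hsh hsint
  obtain ⟨GA, hGAh, hGA⟩ := sym_form (mh_mfe q cA)
  -- the degrees
  obtain ⟨a, ha⟩ := hqd
  have hncop : Nat.Coprime N.factorial n := (hcop.coprime_dvd_left hne').symm
  have hne0 : n ≤ e := Nat.le_of_dvd he0 hne'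
  obtain ⟨al, be, hab⟩ := coin n N.factorial a hn hncop (by
    have h4 : q * (N.factorial * e) ≤ q * a := by
      rw [← ha, mul_comm q]
      exact ha0
    have h5 := Nat.le_of_mul_le_mul_left h4 hq
    calc (n - 1) * N.factorial ≤ e * N.factorial := Nat.mul_le_mul_right _ (by omega)
      _ = N.factorial * e := mul_comm _ _
      _ ≤ a := h5)
  let f0 : Fin r → MvPolynomial (Fin (N + 1)) K1 := fun i' =>
    if i' = i then G ^ al * GA ^ be else X 0 ^ d i'
  have hf0 : ∀ i', (f0 i').IsHomogeneous (d i') := by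
    intro i'
    simp only [f0]
    split_ifs with hi
    · have h4 := (hGh.pow al).mul (hGAh.pow be)
      have h5 : q * n * al + N.factorial * q * be = d i' := by
        rw [hi, ha, hab]
        ring
      rw [h5] at h4
      exact h4
    · exact isHomogeneous_X_pow 0 (d i')
  obtain ⟨B, φ1, hB1⟩ := specialise d K1 f hfh hind f0 hf0
  have hBI := hB1 I hfI i
  have hcκ : CharZero (IsLocalRing.ResidueField B) :=
    charZero_of_injective_ringHom φ1.injective
  have hredh := red_hom B (I := I) hI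
  obtain ⟨C0, hC0⟩ := growth2 I hI hdim.le
  let κ1 := IsLocalRing.ResidueField B
  have hmain := div_of_prime q (((((N - 1).factorial * (∏ β, nW β).factorial * R0) *
    ((N - 1).factorial * (N - 1).factorial) : ℕ)) : ℤ) (red B I) (by
    intro P hP hPp hJP hPgr
    have h4 := hJP hBI
    simp only [f0, if_true] at h4
    rw [map_mul, map_pow, map_pow] at h4
    rcases hPp.mem_or_mem h4 with h5 | h5
    · have h6 := hPp.mem_of_pow_mem _ h5
      obtain ⟨T, hT⟩ := caseG hext hhom hbc hcmp φ1 hkk hu hv hD h1 h2 h3 nW hnW y hgy nU hnU hU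
        nY hnY hY s0 q hs0 G hG P hPp h6 hPgr q (N - 1).factorial (by
        intro t0
        let _ : Algebra K0 κ1 := (φ1.comp K0.subtype).toAlgebra
        let φ1' : K1 →ₐ[K0] κ1 := { φ1 with commutes' := fun _ => rfl }
        have h7 := hspec κ1 K0 hroots0 N τ m u v M1 q bW (fun μ => φ1 (c1 μ)) t0 hN hq hM1 hu hv
          hbW (hc1.map' (f := φ1') φ1.injective)
        have h8 : MvPolynomial.map φ1 s0 = tp (Ix N τ M1) κ1 q (fun μ => φ1 (c1 μ)) :=
          map_tp φ1 q c1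
        rw [h8]
        exact h7)
      refine ⟨T, fun t ht => ?_⟩
      have h7 := hT t ht
      rw [Nat.cast_mul, mul_assoc, mul_left_comm]
      exact h7.mul_left _
    · have h6 := hPp.mem_of_pow_mem _ h5
      obtain ⟨T, hT⟩ := caseA hroots0 φ1 hq bA hbA cA hcA GA hGAh hGA P hP h6 hPgr
      refine ⟨T, fun t ht => ?_⟩
      have h7 := hT t ht
      rw [Nat.cast_mul, mul_assoc]
      exact h7.mul_left _)
    (red B I) hredh le_rfl ⟨C0, fun t => by rw [red_hf B hI]; exact hC0 t⟩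
  obtain ⟨T, hT⟩ := hmain
  refine ⟨T, fun k hk => ?_⟩
  have h4 := hT k hk
  rw [red_hf B hI, red_hf B hI] at h4
  exact h4

end Pool.Agent.Helper14D
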