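import Mathlib
import Pool.Agent.Helper14C.Gen2
import Pool.Agent.Helper14D.Pa

/-!
# Norm forms, symmetric norm forms and generic forms over `κ(T)`, all primes
-/

set_option autoImplicit false
set_option linter.unusedSectionVars false

open MvPolynomial

namespace Pool.Agent.Helper14D

open Pool.Agent.TH922.KC Pool.Agent.Helper14C

lemma pw {p N v m : ℕ} (hp : p.Prime) (hpN : p ≤ N) (hm : m ∣ p ^ v) (hle : m ≤ N * N) :
    m ∣ N.factorial ^ 3 := by
  obtain ⟨t, -, rfl⟩ := (Nat.dvd_prime_pow hp).mp hm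
  have hN : N ≠ 0 := by have := hp.pos; omega
  set l := Nat.log p N with hl
  have h1 : p ^ l ≤ N := Nat.pow_log_le_self p hN
  have h2 : N < p ^ (l + 1) := Nat.lt_pow_succ_log_self hp.one_lt N
  have hl1 : 1 ≤ l := Nat.log_pos hp.one_lt hpN
  have h3 : p ^ t < p ^ (2 * l + 2) := by
    calc p ^ t ≤ N * N := hle
      _ < p ^ (l + 1) * p ^ (l + 1) := Nat.mul_lt_mul_of_lt_of_le h2 h2.le (by omega)
      _ = p ^ (2 * l + 2) := by rw [← pow_add]; congr 1; omega
  have h4 : t < 2 * l + 2 := (Nat.pow_lt_pow_iff_right hp.one_lt).mp h3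
  have h5 : p ^ l ∣ N.factorial := Nat.dvd_factorial (pow_pos hp.pos l) h1
  calc p ^ t ∣ p ^ (l * 3) := pow_dvd_pow p (by omega)
    _ = (p ^ l) ^ 3 := by rw [pow_mul]
    _ ∣ N.factorial ^ 3 := pow_dvd_pow_of_dvd h5 3

/-- from a bound to divisibility -/
lemma pw2 {L : Type} [Field L] {p N v : ℕ} (hp : p.Prime) (hpN : p ≤ N) {ζ : L}
    (hζ : IsPrimitiveRoot ζ (p ^ v)) {b : L} (hb : b ≠ 0)
    (h : ∃ θ : AlgebraicClosure L, θ ^ (p ^ v) = algebraMap L (AlgebraicClosure L) b ∧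
      Module.finrank L (IntermediateField.adjoin L {θ}) ≤ N * N) :
    ∃ θ : AlgebraicClosure L, θ ^ (p ^ v) = algebraMap L (AlgebraicClosure L) b ∧
      Module.finrank L (IntermediateField.adjoin L {θ}) ∣ N.factorial ^ 3 := by
  obtain ⟨θ, hθ, hle⟩ := h
  have hq : 0 < p ^ v := pow_pos hp.pos v
  have hθ0 : θ ≠ 0 := by
    rintro rfl
    rw [zero_pow hq.ne'] at hθ
    exact hb ((map_eq_zero _).mp hθ.symm)
  exact ⟨θ, hθ, pw hp hpN ((kum1 (F := L) hθ0 hq hζ hθ).2 _ ⟨_, hθ⟩) hle⟩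

/-- the final case -/
theorem pt_final3 {κ : Type} [Field κ] [CharZero κ]
    (hroots : ∀ n : ℕ, n ≠ 0 → ∃ ζ : κ, IsPrimitiveRoot ζ n) {k0 : Type} [Field k0] [CharZero k0]
    (φ : k0 →+* κ) {r N p s : ℕ} (hp : p.Prime) (hpN : p ≤ N) (hs : N ≤ s + 1) (v : Fin r → ℕ)
    [∀ i, NeZero (p ^ v i)]
    (b : Fin r → ℕ → (Fin N → Fin 2) → k0)
    (hb : ∀ i, AlgebraicIndependent ℚ (fun z : Fin (p ^ v i) × (Fin N → Fin 2) => b i z.1 z.2))
    (h : Fin r → It (Fin (N + 1)) s → k0) (hh : ∀ i, AlgebraicIndependent ℚ (h i))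
    (a : Fin r → ℚ) (ha : Function.Injective a)
    (D : Fin r → ℕ) (Bf : Fin r → MvPolynomial (Fin (N + 1)) k0)
    (hBh : ∀ i, (Bf i).IsHomogeneous (D i)) (hB : ∀ i, IsNB N (p ^ v i) s (h i) (a i) (Bf i))
    (A B : Set (Fin r)) (hAB : ∀ i, v i = 0 ∨ i ∈ A ∨ i ∈ B) (j : Fin N) :
    PtIdx2 (FractionRing (Polynomial κ))
      (algebraMap (Polynomial κ) (FractionRing (Polynomial κ)) Polynomial.X) j
      (summ A B (fun i => p ^ v i) D)
      (fun y al => algebraMap (Polynomial κ) (FractionRing (Polynomial κ))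
        (Polynomial.C (sumc A B (fun i => p ^ v i) D
          (fun i al => φ (nc (p ^ v i) j (b i) (a i : k0) al))
          (fun i al => φ (coeff (expo (D i) al) (aeval (es (gx k0 N)) (Bf i)))) y al)))
      (∏ i, p ^ v i) ((N.factorial ^ 3) ^ r) := by
  intro L _ _ _ x hx hT hc
  refine fin3 hroots (fun i => p ^ v i) (fun i => pow_pos hp.pos _) a ha (N.factorial ^ 3)
    fun i => ?_
  let ψ : k0 →+* L := (algebraMap (FractionRing (Polynomial κ)) L).comp
    ((algebraMap (Polynomial κ) (FractionRing (Polynomial κ))).comp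
      ((Polynomial.C : κ →+* Polynomial κ).comp φ))
  obtain ⟨ζ, hζ⟩ := hroots (p ^ v i) (pow_pos hp.pos _).ne'
  rcases hAB i with hi | hi | hi
  · refine ⟨algebraMap L (AlgebraicClosure L) (algebraMap (FractionRing (Polynomial κ)) L
      (algebraMap (Polynomial κ) _ Polynomial.X) - (a i : L)), ?_, ?_⟩
    · rw [hi, pow_zero, pow_one]
    · have h2 : Module.finrank L (IntermediateField.adjoin L {algebraMap L (AlgebraicClosure L)
          (algebraMap (FractionRing (Polynomial κ)) L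
            (algebraMap (Polynomial κ) _ Polynomial.X) - (a i : L))}) = 1 := by
        apply IntermediateField.finrank_adjoin_simple_eq_one_iff.mpr
        exact IntermediateField.mem_bot.mpr ⟨_, rfl⟩
      rw [h2]
      exact one_dvd _
  · refine pw2 hp hpN (((hζ.map_of_injective (algebraMap κ _).injective).map_of_injective
      (algebraMap (FractionRing (Polynomial κ)) L).injective)) (Ta_ne (a i)) ?_
    refine typeA2 (pow_pos hp.pos _) ζ hζ (fun k g => φ (b i k g)) ?_ (a i) j x hx hT ?_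
    · have := (hb i).map' (f := φ.toRatAlgHom) φ.injective
      exact this
    · have h1 : mfe (p ^ v i) (fun al => ψ (nc (p ^ v i) j (b i) (a i : k0) al)) x = 0 :=
        hc (Sum.inl ⟨i, hi⟩)
      rw [nc_eval ψ, map_ratCast] at h1
      exact h1
  · refine pw2 hp hpN (((hζ.map_of_injective (algebraMap κ _).injective).map_of_injective
      (algebraMap (FractionRing (Polynomial κ)) L).injective)) (Ta_ne (a i)) ?_
    refine etaB2 hs ζ hζ φ (h i) ?_ (a i) (Bf i) (hBh i) (hB i) j x hx hT ?_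
    · have := (hh i).map' (f := φ.toRatAlgHom) φ.injective
      exact this
    · have h1 : mfe (D i) (fun al => ψ (coeff (expo (D i) al) (aeval (es (gx k0 N)) (Bf i)))) x
          = 0 := hc (Sum.inr ⟨i, hi⟩)
      rw [← es_mfe (hBh i) ψ x] at h1
      exact h1

/-- generic coefficients -/
theorem pt_gen3 {κ1 : Type} [Field κ1] {k0 : Type} [Field k0] [CharZero k0] [Algebra k0 κ1]
    (hroots : ∀ n : ℕ, n ≠ 0 → ∃ ζ : k0, IsPrimitiveRoot ζ n)
    {r N p s : ℕ} (hp : p.Prime) (hpN : p ≤ N) (hs : N ≤ s + 1) (v : Fin r → ℕ)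
    [∀ i, NeZero (p ^ v i)]
    (b : Fin r → ℕ → (Fin N → Fin 2) → k0)
    (hb : ∀ i, AlgebraicIndependent ℚ (fun z : Fin (p ^ v i) × (Fin N → Fin 2) => b i z.1 z.2))
    (h : Fin r → It (Fin (N + 1)) s → k0) (hh : ∀ i, AlgebraicIndependent ℚ (h i))
    (a : Fin r → ℚ) (ha : Function.Injective a)
    (D : Fin r → ℕ) (Bf : Fin r → MvPolynomial (Fin (N + 1)) k0)
    (hBh : ∀ i, (Bf i).IsHomogeneous (D i)) (hB : ∀ i, IsNB N (p ^ v i) s (h i) (a i) (Bf i))
    (A B : Set (Fin r)) (hAB : ∀ i, v i = 0 ∨ i ∈ A ∨ i ∈ B) (j : Fin N)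
    (c : ∀ i, (Fin N → Fin (p ^ v i + 1)) → κ1)
    (hc : AlgebraicIndependent k0
      (fun y : (Σ i : Fin r, (Fin N → Fin (p ^ v i + 1))) => c y.1 y.2)) :
    PtIdx2 (FractionRing (Polynomial κ1))
      (algebraMap (Polynomial κ1) (FractionRing (Polynomial κ1)) Polynomial.X) j
      (summ A B (fun i => p ^ v i) D)
      (fun y al => algebraMap (Polynomial κ1) (FractionRing (Polynomial κ1))
        (Polynomial.C (sumc A B (fun i => p ^ v i) D c
          (fun i al => algebraMap k0 κ1 (coeff (expo (D i) al) (aeval (es (gx k0 N)) (Bf i))))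
          y al)))
      (∏ i, p ^ v i) ((N.factorial ^ 3) ^ r) := by
  classical
  obtain ⟨B', hk, hcB, hres⟩ := specialise' _ hc
    (fun y : (Σ i : Fin r, (Fin N → Fin (p ^ v i + 1))) =>
      nc (p ^ v y.1) j (b y.1) (a y.1 : k0) y.2)
  let ι0 : k0 →+* B' := (algebraMap k0 κ1).codRestrict B'.toSubring hk
  let φ : k0 →+* IsLocalRing.ResidueField B' := (IsLocalRing.residue B').comp ι0
  have hcκ : CharZero (IsLocalRing.ResidueField B') := charZero_of_injective_ringHom φ.injective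
  have hroots' : ∀ n : ℕ, n ≠ 0 → ∃ ζ : IsLocalRing.ResidueField B', IsPrimitiveRoot ζ n := by
    intro n hn
    obtain ⟨ζ, hζ⟩ := hroots n hn
    exact ⟨φ ζ, hζ.map_of_injective φ.injective⟩
  have h1 := pt_final3 hroots' φ hp hpN hs v b hb h hh a ha D Bf hBh hB A B hAB j
  let cB : ∀ y : A ⊕ B, (Fin N → Fin (summ A B (fun i => p ^ v i) D y + 1)) → B' :=
    sumc A B (fun i => p ^ v i) D (fun i al => ⟨c i al, hcB ⟨i, al⟩⟩)
      (fun i al => ι0 (coeff (expo (D i) al) (aeval (es (gx k0 N)) (Bf i))))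
  have h2 := pt_spec2 B' j (summ A B (fun i => p ^ v i) D) cB (∏ i, p ^ v i) ((N.factorial ^ 3) ^ r) (by
    have e : ∀ (y : A ⊕ B) (al : Fin N → Fin (summ A B (fun i => p ^ v i) D y + 1)),
        IsLocalRing.residue B' (cB y al) = sumc A B (fun i => p ^ v i) D
          (fun i al => φ (nc (p ^ v i) j (b i) (a i : k0) al))
          (fun i al => φ (coeff (expo (D i) al) (aeval (es (gx k0 N)) (Bf i)))) y al := by
      rintro (i | i) al
      · exact hres ⟨i.1, al⟩
      · rfl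
    simp only [e]
    exact h1)
  have e2 : ∀ (y : A ⊕ B) (al : Fin N → Fin (summ A B (fun i => p ^ v i) D y + 1)),
      ((cB y al : B') : κ1) = sumc A B (fun i => p ^ v i) D c
          (fun i al => algebraMap k0 κ1 (coeff (expo (D i) al) (aeval (es (gx k0 N)) (Bf i))))
          y al := by
    rintro (i | i) al
    · rfl
    · rfl
  simp only [e2] at h2
  exact h2

end Pool.Agent.Helper14D
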