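import Mathlib
import Pool.Agent.Helper14D.Main3
import Pool.Agent.Helper14D.Main4
import Pool.Agent.Helper14D.Rep3
import Pool.Agent.Helper14D.Dens3
import Pool.Agent.Helper14C.Main2
import Pool.Agent.Helper95.VD.Rel
import Pool.Agent.Hx18.VD.Ints
import Pool.Agent.H89B.VD.Trace
import Pool.Agent.Helper37.VD.Main
import Pool.Agent.Helper82.VD.Proj
import Pool.Agent.Helper57K1.VD.Growth
import Pool.Agent.Helper16.VD.Norm
import Pool.Agent.Helper96.VD.Count
import Pool.Agent.Helper24.VD.Alg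
import Pool.Agent.Helper93.VD.S
import Pool.Agent.Helper4.VD.Spec
import Pool.Agent.Helper28K1.VD.Cmp
import Pool.Agent.Helper28K1.VD.Data
import Pool.Agent.Helper50.VD.Dens

/-!
# Curves on very general complete intersections: the final theorem
-/

set_option autoImplicit false
set_option linter.unusedSectionVars false

open MvPolynomial

namespace Pool.Agent.Helper14D

open Pool.Agent.Helper14C Pool.Agent.TH922.KC

/-- the difference of the Hilbert function of the homogeneous coordinate ring -/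
noncomputable def Dl {N : ℕ} (I : Ideal (MvPolynomial (Fin (N + 1)) ℂ)) (k : ℕ) : ℤ :=
  (Module.finrank ℂ (Submodule.map (Ideal.Quotient.mkₐ ℂ I).toLinearMap
      (MvPolynomial.homogeneousSubmodule (Fin (N + 1)) ℂ (k + 1))) : ℤ) -
    (Module.finrank ℂ (Submodule.map (Ideal.Quotient.mkₐ ℂ I).toLinearMap
      (MvPolynomial.homogeneousSubmodule (Fin (N + 1)) ℂ k)) : ℤ)

/-- **A single equation.** -/
theorem single (N : ℕ) (hN : 0 < N) :
    ∃ M a0 : ℕ, 0 < M ∧ 0 < a0 ∧ ∀ (r : ℕ) (d : Fin r → ℕ),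
    ∃ bad : ℕ → MvPolynomial (Σ i : Fin r, {μ : Fin (N + 1) →₀ ℕ // μ.degree = d i}) ℂ,
      (∀ j, bad j ≠ 0) ∧
      ∀ f : Fin r → MvPolynomial (Fin (N + 1)) ℂ,
        (∀ i, f i ∈ MvPolynomial.homogeneousSubmodule (Fin (N + 1)) ℂ (d i)) →
        (∀ j, MvPolynomial.eval (fun x => MvPolynomial.coeff x.2.1 (f x.1)) (bad j) ≠ 0) →
        ∀ I : Ideal (MvPolynomial (Fin (N + 1)) ℂ),
          (∀ p ∈ I, ∀ k : ℕ, MvPolynomial.homogeneousComponent k p ∈ I) →
          I.IsPrime →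
          ringKrullDim (MvPolynomial (Fin (N + 1)) ℂ ⧸ I) = 2 →
          (∀ i, f i ∈ I) →
          ∀ (i : Fin r) (q : ℕ), 0 < q → q ∣ d i → a0 * q ≤ d i →
            ∃ K : ℕ, ∀ k : ℕ, K ≤ k → (q : ℤ) ∣ (M : ℤ) * Dl I k := by
  obtain ⟨M1, b, hM1, hℓ, hb, hkb, hu, hv, hu0, hv0, hD⟩ := Helper28K1.VD.t_data N hN
  have hrel : Rel (pu N) (pv N) (fun t => cw N t.1.1.card) (2 * N).factorial :=
    Helper95.VD.t_rel H89B.VD.t_trace H89B.VD.t_total N hN
  exact main3 Helper24.VD.t_ext Helper16.VD.t_homint Helper24.VD.t_bc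
    (Helper28K1.VD.t_cmp Helper24.VD.t_reduce Helper57K1.VD.t_growth) Helper24.VD.t_val
    Helper37.VD.t_bpf Helper16.VD.t_norm (Helper4.VD.t_spec Helper96.VD.t_count)
    (Hx18.VD.t_ints Helper24.VD.t_val) hN (m := fun t : Pen N => t.1.1.card) (u := pu N)
    (v := pv N) (M1 := M1) (b := b) (kk := (2 * N).factorial) (Nat.factorial_pos _)
    (fun t => cw N t.1.1.card) (by omega) hu hv hu0 hv0 hrel hb hkb hD (by
      intro k _ _ η lam hGen
      obtain ⟨h1, h2, h3⟩ := Helper82.VD.t_proj Helper37.VD.t_bpf Helper93.VD.t_deg N (Pen N)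
        (fun t : Pen N => t.1.1.card) (pu N) (pv N) M1 k η lam hN hM1 hu hv hu0 hv0 hGen
      refine ⟨h1, h2, Nat.coprime_of_dvd fun p hp hp1 hp2 => ?_⟩
      exact h3 p hp (hℓ p hp ((hp.dvd_factorial).mp hp2)) hp1)

/-- admissible divisors of the degrees -/
def Adm (N a0 : ℕ) {r : ℕ} (d Q : Fin r → ℕ) : Prop :=
  ∀ p : ℕ, p.Prime →
    (a0 < p ∧ (∀ i j, p ∣ Q i → p ∣ Q j → i = j) ∧
      ∀ i, p ∣ Q i → a0 * p ^ (Q i).factorization p ≤ d i) ∨
    ∀ i, p ∣ Q i → (N.factorial * p ^ (Q i).factorization p ∣ d i ∨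
      N.factorial ^ 2 * (p ^ (Q i).factorization p) ^ (N - 1) ≤ d i)

/-- weakly admissible divisors of the degrees -/
def WAdm (N a0 : ℕ) {r : ℕ} (d Q : Fin r → ℕ) : Prop :=
  ∀ p : ℕ, p.Prime →
    ((∀ i j, p ∣ Q i → p ∣ Q j → i = j) ∧
      ∀ i, p ∣ Q i → a0 * p ^ (Q i).factorization p ≤ d i) ∨
    ∀ i, p ∣ Q i → (N.factorial * p ^ (Q i).factorization p ∣ d i ∨
      N.factorial ^ 2 * (p ^ (Q i).factorization p) ^ (N - 1) ≤ d i)

/-- **The theorem.** -/
theorem comb (N : ℕ) (hN : 0 < N) : ∃ M a0 : ℕ, 0 < M ∧ 0 < a0 ∧ ∀ (r : ℕ) (d : Fin r → ℕ),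
    (∀ i, 0 < d i) →
    ∃ bad : ℕ → MvPolynomial (Σ i : Fin r, {μ : Fin (N + 1) →₀ ℕ // μ.degree = d i}) ℂ,
      (∀ j, bad j ≠ 0) ∧
      ∀ f : Fin r → MvPolynomial (Fin (N + 1)) ℂ,
        (∀ i, f i ∈ MvPolynomial.homogeneousSubmodule (Fin (N + 1)) ℂ (d i)) →
        (∀ j, MvPolynomial.eval (fun x => MvPolynomial.coeff x.2.1 (f x.1)) (bad j) ≠ 0) →
        ∀ I : Ideal (MvPolynomial (Fin (N + 1)) ℂ),
          (∀ p ∈ I, ∀ k : ℕ, MvPolynomial.homogeneousComponent k p ∈ I) →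
          I.IsPrime →
          ringKrullDim (MvPolynomial (Fin (N + 1)) ℂ ⧸ I) = 2 →
          (∀ i, f i ∈ I) →
          ∀ Q : Fin r → ℕ, (∀ i, Q i ∣ d i) →
            (Adm N a0 d Q → ∃ K : ℕ, ∀ k : ℕ, K ≤ k →
              ((∏ i, Q i : ℕ) : ℤ) ∣ ((N.factorial ^ (4 * r + 1) : ℕ) : ℤ) * Dl I k) ∧
            (WAdm N a0 d Q → ∃ K : ℕ, ∀ k : ℕ, K ≤ k →
              ((∏ i, Q i : ℕ) : ℤ) ∣ ((M * N.factorial ^ (4 * r + 1) : ℕ) : ℤ) * Dl I k) := by
  classical
  obtain ⟨M, a1, hM, ha1, hsingle⟩ := single N hN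
  refine ⟨M, a1 + M, hM, by omega, fun r d hd => ?_⟩
  obtain ⟨bad1, hbad1, h1⟩ := hsingle r d
  obtain ⟨bad2, hbad2, h2⟩ := main2 N r hN d
  obtain ⟨bad3, hbad3, h3⟩ := main4 N r hN d
  refine ⟨fun j => if j % 3 = 0 then bad1 (j / 3) else if j % 3 = 1 then bad2 (j / 3)
    else bad3 (j / 3), ?_, ?_⟩
  · intro j
    simp only
    split_ifs
    · exact hbad1 _
    · exact hbad2 _
    · exact hbad3 _
  intro f hf hfb I hI hIp hdim hfI Q hQd
  have hb1 : ∀ j, MvPolynomial.eval (fun x => MvPolynomial.coeff x.2.1 (f x.1)) (bad1 j) ≠ 0 := by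
    intro j
    have h4 := hfb (3 * j)
    have e1 : 3 * j % 3 = 0 := by omega
    have e2 : 3 * j / 3 = j := by omega
    simp only [e1, e2, if_true] at h4
    exact h4
  have hb2 : ∀ j, MvPolynomial.eval (fun x => MvPolynomial.coeff x.2.1 (f x.1)) (bad2 j) ≠ 0 := by
    intro j
    have h4 := hfb (3 * j + 1)
    have e1 : (3 * j + 1) % 3 = 1 := by omega
    have e2 : (3 * j + 1) / 3 = j := by omega
    have e3 : (1 : ℕ) ≠ 0 := one_ne_zero
    simp only [e1, e2, e3, if_true, if_false] at h4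
    exact h4
  have hb3 : ∀ j, MvPolynomial.eval (fun x => MvPolynomial.coeff x.2.1 (f x.1)) (bad3 j) ≠ 0 := by
    intro j
    have h4 := hfb (3 * j + 2)
    have e1 : (3 * j + 2) % 3 = 2 := by omega
    have e2 : (3 * j + 2) / 3 = j := by omega
    have e3 : (2 : ℕ) ≠ 0 := two_ne_zero
    have e4 : (2 : ℕ) ≠ 1 := by decide
    simp only [e1, e2, e3, e4, if_false] at h4
    exact h4
  have h1' := h1 f hf hb1 I hI hIp hdim hfI
  have h2' := h2 f hf hb2 I hI hIp hdim hfI
  have h3' := h3 f hf hb3 I hI hIp hdim hfI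
  have hQ0 : ∀ i, Q i ≠ 0 := fun i hi => by
    have h1 := hQd i
    rw [hi, zero_dvd_iff] at h1
    exact (hd i).ne' h1
  have hP0 : ∏ i, Q i ≠ 0 := Finset.prod_ne_zero_iff.mpr fun i _ => hQ0 i
  set P := ∏ i, Q i with hP
  have hfac : ∀ p, P.factorization p = ∑ i, (Q i).factorization p := by
    intro p
    rw [hP, Nat.factorization_prod fun i _ => hQ0 i, Finsupp.finsetSum_apply]
  -- the gluing
  have glue : ∀ F : ℕ, (∀ p ∈ P.primeFactors, ∃ K : ℕ, ∀ k : ℕ, K ≤ k →
      ((p ^ P.factorization p : ℕ) : ℤ) ∣ (F : ℤ) * Dl I k) →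
      ∃ K : ℕ, ∀ k : ℕ, K ≤ k → ((P : ℕ) : ℤ) ∣ (F : ℤ) * Dl I k := by
    intro F hkey
    have hkey' : ∀ p : ℕ, ∃ K : ℕ, p ∈ P.primeFactors → ∀ k : ℕ, K ≤ k →
        ((p ^ P.factorization p : ℕ) : ℤ) ∣ (F : ℤ) * Dl I k := by
      intro p
      by_cases hp : p ∈ P.primeFactors
      · obtain ⟨K, hK⟩ := hkey p hp
        exact ⟨K, fun _ => hK⟩
      · exact ⟨0, fun h => absurd h hp⟩
    choose K hK using hkey'
    refine ⟨P.primeFactors.sup K, fun k hk => ?_⟩
    have hfacP : ((P : ℕ) : ℤ) = ∏ p ∈ P.primeFactors, ((p ^ P.factorization p : ℕ) : ℤ) := by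
      conv_lhs => rw [← Nat.prod_factorization_pow_eq_self hP0]
      rw [Finsupp.prod, Nat.support_factorization, Nat.cast_prod]
    rw [hfacP]
    apply Finset.prod_dvd_of_coprime
    · intro p hp p' hp' hne
      change IsCoprime ((p ^ P.factorization p : ℕ) : ℤ) ((p' ^ P.factorization p' : ℕ) : ℤ)
      rw [Nat.isCoprime_iff_coprime]
      exact Nat.Coprime.pow _ _ ((Nat.coprime_primes (Nat.prime_of_mem_primeFactors hp)
        (Nat.prime_of_mem_primeFactors hp')).mpr hne)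
    · intro p hp
      exact hK p hp k ((Finset.le_sup (f := K) hp).trans hk)
  -- the second alternative
  have halt : ∀ p ∈ P.primeFactors, (∀ i, p ∣ Q i →
      (N.factorial * p ^ (Q i).factorization p ∣ d i ∨
        N.factorial ^ 2 * (p ^ (Q i).factorization p) ^ (N - 1) ≤ d i)) →
      ∃ K : ℕ, ∀ k : ℕ, K ≤ k →
        ((p ^ P.factorization p : ℕ) : ℤ) ∣ ((N.factorial ^ (4 * r + 1) : ℕ) : ℤ) * Dl I k := by
    intro p hp halt
    set F := N.factorial ^ (4 * r + 1) with hF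
    have hpp := Nat.prime_of_mem_primeFactors hp
    rcases Nat.lt_or_ge N p with hpN | hpN
    · -- primes `p > N`
      have hrep : ∀ i, ∃ al be : ℕ, (Q i).factorization p = 0 ∨
          d i = al * (N.factorial * p ^ (Q i).factorization p) +
            be * ((p ^ (Q i).factorization p) ^ (N - 1) * (N.factorial + 1)) := by
        intro i
        by_cases hi : p ∣ Q i
        · obtain ⟨al, be, hab⟩ := Pool.Agent.Helper14C.rep N p ((Q i).factorization p) (d i)
            hN hpp hpN ((Nat.ordProj_dvd (Q i) p).trans (hQd i)) (halt i hi)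
          exact ⟨al, be, Or.inr hab⟩
        · exact ⟨0, 0, Or.inl (Nat.factorization_eq_zero_of_not_dvd hi)⟩
      choose al be hab using hrep
      have hs : N ≤ N.factorial + 1 + 1 := by
        have := Nat.self_le_factorial N
        omega
      obtain ⟨K, hK⟩ := h2' p (N.factorial + 1) (fun i => (Q i).factorization p) al be hpp hpN
        hs hab
      refine ⟨K, fun k hk => ?_⟩
      have h4 := hK k hk
      rw [Finset.prod_pow_eq_pow_sum, ← hfac] at h4
      exact Dvd.dvd.mul_left h4 _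
    · -- primes `p ≤ N`
      have hrep : ∀ i, ∃ v' al be : ℕ, (Q i).factorization p ≤ v' + N.factorial.factorization p ∧
          (v' = 0 ∨ d i = al * (N.factorial * p ^ v') +
            be * ((p ^ v') ^ (N - 1) * (N.factorial + 1))) := by
        intro i
        by_cases hi : p ∣ Q i
        · exact Rep3.rep3 N p ((Q i).factorization p) (d i) hN hpp
            ((Nat.ordProj_dvd (Q i) p).trans (hQd i)) (halt i hi)
        · exact ⟨0, 0, 0, by rw [Nat.factorization_eq_zero_of_not_dvd hi]; omega, Or.inl rfl⟩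
      choose v' al be hv' hab using hrep
      have hs : N ≤ N.factorial + 1 + 1 := by
        have := Nat.self_le_factorial N
        omega
      obtain ⟨K, hK⟩ := h3' p (N.factorial + 1) v' al be hpp hpN hs hab
      refine ⟨K, fun k hk => ?_⟩
      have h4 := hK k hk
      have h5 : p ^ P.factorization p ∣ N.factorial ^ r * ∏ i, p ^ v' i := by
        rw [hfac, ← Finset.prod_pow_eq_pow_sum]
        calc ∏ i, p ^ (Q i).factorization p ∣ ∏ i, (N.factorial * p ^ v' i) := by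
              refine Finset.prod_dvd_prod_of_dvd _ _ fun i _ => ?_
              calc p ^ (Q i).factorization p ∣ p ^ (v' i + N.factorial.factorization p) :=
                    pow_dvd_pow p (hv' i)
                _ = p ^ N.factorial.factorization p * p ^ v' i := by rw [pow_add, mul_comm]
                _ ∣ N.factorial * p ^ v' i := Nat.mul_dvd_mul_right (Nat.ordProj_dvd _ _) _
          _ = N.factorial ^ r * ∏ i, p ^ v' i := by
              rw [Finset.prod_mul_distrib, Finset.prod_const, Finset.card_univ, Fintype.card_fin]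
      have h6 : ((p ^ P.factorization p : ℕ) : ℤ) ∣ ((N.factorial ^ r * ∏ i, p ^ v' i : ℕ) : ℤ) :=
        Int.natCast_dvd_natCast.mpr h5
      refine h6.trans ?_
      have h7 : ((N.factorial ^ r * ∏ i, p ^ v' i : ℕ) : ℤ) ∣
          ((N.factorial ^ r : ℕ) : ℤ) * ((((N - 1).factorial * (N.factorial ^ 3) ^ r : ℕ) : ℤ) *
            Dl I k) := by
        rw [Nat.cast_mul]
        exact mul_dvd_mul_left _ h4
      refine h7.trans ?_
      rw [← mul_assoc, ← Nat.cast_mul]
      refine mul_dvd_mul_right (Int.natCast_dvd_natCast.mpr ?_) _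
      calc N.factorial ^ r * ((N - 1).factorial * (N.factorial ^ 3) ^ r)
          ∣ N.factorial ^ r * (N.factorial * (N.factorial ^ 3) ^ r) :=
            Nat.mul_dvd_mul_left _ (Nat.mul_dvd_mul_right
              (Nat.factorial_dvd_factorial (Nat.sub_le _ _)) _)
        _ = F := by rw [hF, ← pow_mul]; ring
  -- the first alternative
  have hfst : ∀ p ∈ P.primeFactors, (∀ i j, p ∣ Q i → p ∣ Q j → i = j) →
      (∀ i, p ∣ Q i → (a1 + M) * p ^ (Q i).factorization p ≤ d i) →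
      ∃ K : ℕ, ∀ k : ℕ, K ≤ k → ((p ^ P.factorization p : ℕ) : ℤ) ∣ (M : ℤ) * Dl I k := by
    intro p hp huniq hle
    have hpp := Nat.prime_of_mem_primeFactors hp
    obtain ⟨i0, -, hi0⟩ := (hpp.prime.dvd_finsetProd_iff _).mp (Nat.dvd_of_mem_primeFactors hp)
    have hv : P.factorization p = (Q i0).factorization p := by
      rw [hfac, Finset.sum_eq_single i0]
      · intro i _ hi
        exact Nat.factorization_eq_zero_of_not_dvd fun hdv => hi (huniq i i0 hdv hi0)
      · intro h; exact absurd (Finset.mem_univ i0) h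
    obtain ⟨K, hK⟩ := h1' i0 (p ^ (Q i0).factorization p) (pow_pos hpp.pos _)
      ((Nat.ordProj_dvd (Q i0) p).trans (hQd i0))
      ((Nat.mul_le_mul_right _ (Nat.le_add_right a1 M)).trans (hle i0 hi0))
    refine ⟨K, fun k hk => ?_⟩
    rw [hv]
    exact hK k hk
  constructor
  · intro hQ
    refine glue _ fun p hp => ?_
    have hpp := Nat.prime_of_mem_primeFactors hp
    rcases hQ p hpp with ⟨hpa, huniq, hle⟩ | h4
    · obtain ⟨K, hK⟩ := hfst p hp huniq hle
      refine ⟨K, fun k hk => ?_⟩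
      have hcop : IsCoprime ((p ^ P.factorization p : ℕ) : ℤ) (M : ℤ) := by
        rw [Nat.isCoprime_iff_coprime]
        apply Nat.Coprime.pow_left
        rw [hpp.coprime_iff_not_dvd]
        intro hdv
        have := Nat.le_of_dvd hM hdv
        omega
      exact (hcop.dvd_of_dvd_mul_left (hK k hk)).mul_left _
    · exact halt p hp h4
  · intro hQ
    refine glue _ fun p hp => ?_
    rcases hQ p (Nat.prime_of_mem_primeFactors hp) with ⟨huniq, hle⟩ | h4
    · obtain ⟨K, hK⟩ := hfst p hp huniq hle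
      refine ⟨K, fun k hk => ?_⟩
      rw [Nat.cast_mul, mul_comm (M : ℤ), mul_assoc]
      exact (hK k hk).mul_left _
    · obtain ⟨K, hK⟩ := halt p hp h4
      refine ⟨K, fun k hk => ?_⟩
      rw [Nat.cast_mul, mul_assoc]
      exact (hK k hk).mul_left _

/-- **The exceptional degree tuples have density zero.** -/
theorem dens (N a0 r : ℕ) : Filter.Tendsto (fun X : ℕ =>
    ((Set.ncard {d : Fin r → ℕ | (∀ i, 0 < d i ∧ d i ≤ X) ∧ ¬ Adm N a0 d d} : ℕ) : ℝ) /
      (X : ℝ) ^ r) Filter.atTop (nhds 0) := by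
  refine squeeze_zero (fun X => by positivity) (fun X => ?_)
    (t_dens3 Helper50.VD.t_dens a0 (N.factorial ^ 2) (N - 1) r)
  refine div_le_div_of_nonneg_right ?_ (by positivity)
  have hfin : ({d : Fin r → ℕ | (∀ i, 0 < d i ∧ d i ≤ X) ∧
      ExT a0 (N.factorial ^ 2) (N - 1) d}).Finite := by
    refine (Set.Finite.pi' (t := fun _ : Fin r => Set.Iic X) fun _ => Set.finite_Iic X).subset ?_
    rintro d ⟨hd, -⟩ i
    exact (hd i).2
  have h2 := Set.ncard_le_ncard (s := {d : Fin r → ℕ | (∀ i, 0 < d i ∧ d i ≤ X) ∧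
      ¬ Adm N a0 d d}) (by
    rintro d ⟨hd, hA⟩
    refine ⟨hd, ?_⟩
    by_contra hE
    apply hA
    unfold ExT at hE
    push Not at hE
    obtain ⟨hE1, hE2⟩ := hE
    intro p hp
    by_cases hsh : p ≤ a0 ∨ ∃ i j : Fin r, i ≠ j ∧ p ∣ d i ∧ p ∣ d j
    · right
      intro i _
      right
      exact hE2 p hp hsh i _ (Nat.ordProj_dvd (d i) p)
    · left
      push Not at hsh
      obtain ⟨hsh1, hsh2⟩ := hsh
      refine ⟨hsh1, ?_, ?_⟩
      · intro i j hi hj
        by_contra hne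
        exact hsh2 i j hne hi hj
      · intro i _
        exact hE1 i p _ hp (Nat.ordProj_dvd (d i) p)) hfin
  exact_mod_cast h2

end Pool.Agent.Helper14D
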