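import Mathlib
import Pool.Agent.Helper14D.Stm2

/-!
# Curves on very general hypersurfaces of degree `q * a`, `a ≥ a0(N)`: statements of the parts, III
-/

set_option autoImplicit false

open MvPolynomial

namespace Pool.Agent.Helper14D

/-- the concrete data -/
def S_data : Prop := ∀ N : ℕ, 0 < N → ∃ (M1 : ℕ) (b : Pen N → ℕ), 1 < M1 ∧
  (∀ ℓ : ℕ, ℓ.Prime → ℓ ≤ N → ℓ ∣ M1) ∧
  (∀ t, (b t : ℤ) = cw N t.1.1.card + (2 * N).factorial * M1) ∧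
  (2 * N).factorial ≤ ∑ t, b t ∧
  (∀ t : Pen N, (pu N t).IsHomogeneous t.1.1.card) ∧
  (∀ t : Pen N, (pv N t).IsHomogeneous t.1.1.card) ∧
  (∀ t, pu N t ≠ 0) ∧ (∀ t, pv N t ≠ 0) ∧
  ∑ t : Pen N, t.1.1.card * b t = (2 * N).factorial * (1 + M1 * ∑ t : Pen N, t.1.1.card)

/-- the degrees all of whose prime power divisors are small have density one -/
def S_dens : Prop := ∀ a0 : ℕ, Filter.Tendsto (fun X : ℕ => ((Set.ncard {d : ℕ | d ≤ X ∧
  ∃ p k : ℕ, p.Prime ∧ p ^ k ∣ d ∧ d < a0 * p ^ k} : ℕ) : ℝ) / X)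
  Filter.atTop (nhds 0)

end Pool.Agent.Helper14D
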