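import Mathlib
import Pool.Agent.Helper14D.Stm3

/-!
# Curves on very general hypersurfaces: statements of the parts, IV
-/

set_option autoImplicit false

namespace Pool.Agent.Helper14D

/-- exceptional degree tuples: some `d i` is a prime power times a number less than `a0`, or some
prime dividing two of the degrees has a power `p ^ k` dividing some `d i` with `d i < c * (p ^ k) ^ e` -/
def Exc (a0 c e : ℕ) {r : ℕ} (d : Fin r → ℕ) : Prop :=
  (∃ (i : Fin r) (p k : ℕ), p.Prime ∧ p ^ k ∣ d i ∧ d i < a0 * p ^ k) ∨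
    ∃ p : ℕ, p.Prime ∧ (∃ i j : Fin r, i ≠ j ∧ p ∣ d i ∧ p ∣ d j) ∧
      ∃ (i : Fin r) (k : ℕ), p ^ k ∣ d i ∧ d i < c * (p ^ k) ^ e

/-- the exceptional tuples have density zero -/
def S_dens2 : Prop := ∀ a0 c e r : ℕ, Filter.Tendsto (fun X : ℕ =>
  ((Set.ncard {d : Fin r → ℕ | (∀ i, 0 < d i ∧ d i ≤ X) ∧ Exc a0 c e d} : ℕ) : ℝ) / (X : ℝ) ^ r)
  Filter.atTop (nhds 0)

/-- a representation -/
def S_rep2 : Prop := ∀ (N p v d : ℕ), 0 < N → p.Prime → p ^ v ∣ d →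
  (N.factorial * p ^ v ∣ d ∨ 2 * N.factorial ^ 2 * (p ^ v) ^ (N - 1) ≤ d) →
  ∃ v' al be : ℕ, v ≤ v' + N.factorial.factorization p ∧
    (v' = 0 ∨ d = al * (N.factorial * p ^ v') + be * ((p ^ v') ^ (N - 1) * (N.factorial + 1)))

end Pool.Agent.Helper14D
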